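import Pool.Agent.Y746.PT.Fin

/-! # Every short block contains a large value -/

set_option autoImplicit false

open Complex Filter Topology Set MeasureTheory
open scoped ComplexConjugate
open Pool.Agent.H24R2.JP (XX)

namespace Pool.Agent.Y746.PT

open Pool.Agent.Y23 (Zt mu zsummable)

/-- the part of the sum over the zeros in a finite set that contains all zeros to the right of `η` up to
the height `T` -/
lemma part_bound {M : ℝ} (hM : 0 < M) (hb : ∀ w : ℂ, |w.re| ≤ 1 → ‖K0 w‖ ≤ M * Real.exp (-(2 * |w.im|)))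
    {η T : ℝ} (hη : 1 / 2 ≤ η) (S : Finset Zt) (hS : ∀ ρ : Zt, η ≤ (ρ : ℂ).re → |(ρ : ℂ).im| ≤ T → ρ ∈ S)
    {u : ℝ} (hu0 : 0 ≤ u) (huT : u ≤ 2 * T) :
    ‖∑ ρ ∈ S, ft u ρ‖ ≤ ‖ZS u‖ + M * (∑' ρ : Zt, (mu ρ : ℝ) * Real.exp (-|(ρ : ℂ).im|)) * Real.exp (u * (η - 1 / 2)) := by
  classical
  have hs := (ft_summable u).of_norm
  have e1 : ZS u = ∑ ρ ∈ S, ft u ρ + ∑' ρ : (((S : Set Zt)ᶜ : Set Zt) : Type), ft u (ρ : Zt) := by
    have := hs.sum_add_tsum_compl (s := S)
    rw [this]; rfl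
  have hterm : ∀ ρ : Zt, ρ ∉ S → ‖ft u ρ‖ ≤ (M * Real.exp (u * (η - 1 / 2))) * ((mu ρ : ℝ) * Real.exp (-|(ρ : ℂ).im|)) := by
    intro ρ hρ
    refine (ft_norm hb u ρ).trans ?_
    have hκ : Real.exp (-(2 * |(ρ : ℂ).im|)) * Real.exp (u * ((ρ : ℂ).re - 1 / 2)) ≤
        Real.exp (-|(ρ : ℂ).im|) * Real.exp (u * (η - 1 / 2)) := by
      rw [← Real.exp_add, ← Real.exp_add]
      refine Real.exp_le_exp.2 ?_
      have hγ := abs_nonneg (ρ : ℂ).im
      rcases lt_or_ge (ρ : ℂ).re η with h1 | h1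
      · have : u * ((ρ : ℂ).re - 1 / 2) ≤ u * (η - 1 / 2) := mul_le_mul_of_nonneg_left (by linarith) hu0
        linarith
      · have h2 : T < |(ρ : ℂ).im| := by
          by_contra hc
          push Not at hc
          exact hρ (hS ρ h1 hc)
        have h3 : (ρ : ℂ).re < 1 := ρ.2.2.2
        have h4 : u * ((ρ : ℂ).re - 1 / 2) ≤ u * (1 / 2) := mul_le_mul_of_nonneg_left (by linarith) hu0
        have h5 : 0 ≤ u * (η - 1 / 2) := mul_nonneg hu0 (by linarith)
        linarith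
    calc (mu ρ : ℝ) * (M * Real.exp (-(2 * |(ρ : ℂ).im|)) * Real.exp (u * ((ρ : ℂ).re - 1 / 2)))
        = (mu ρ : ℝ) * M * (Real.exp (-(2 * |(ρ : ℂ).im|)) * Real.exp (u * ((ρ : ℂ).re - 1 / 2))) := by ring
      _ ≤ (mu ρ : ℝ) * M * (Real.exp (-|(ρ : ℂ).im|) * Real.exp (u * (η - 1 / 2))) := by gcongr
      _ = _ := by ring
  have hsub : Summable (fun ρ : (((S : Set Zt)ᶜ : Set Zt) : Type) => ‖ft u (ρ : Zt)‖) := (ft_summable u).subtype _
  have h2 : ‖∑' ρ : (((S : Set Zt)ᶜ : Set Zt) : Type), ft u (ρ : Zt)‖ ≤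
      (M * Real.exp (u * (η - 1 / 2))) * ∑' ρ : Zt, (mu ρ : ℝ) * Real.exp (-|(ρ : ℂ).im|) := by
    refine (norm_tsum_le_tsum_norm hsub).trans ?_
    rw [← tsum_mul_left]
    have h3 : Summable (fun ρ : (((S : Set Zt)ᶜ : Set Zt) : Type) => (M * Real.exp (u * (η - 1 / 2))) * ((mu ((ρ : Zt) : ℂ) : ℝ) * Real.exp (-|((ρ : Zt) : ℂ).im|))) :=
      (dec_sum.mul_left _).subtype _
    have hle : ∀ ρ : (((S : Set Zt)ᶜ : Set Zt) : Type), ‖ft u (ρ : Zt)‖ ≤
        (M * Real.exp (u * (η - 1 / 2))) * ((mu ((ρ : Zt) : ℂ) : ℝ) * Real.exp (-|((ρ : Zt) : ℂ).im|)) := by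
      intro ρ
      refine hterm (ρ : Zt) (fun hm => ?_)
      have h9 : (ρ : Zt) ∈ ((S : Set Zt)ᶜ : Set Zt) := Subtype.coe_prop ρ
      exact h9 (Finset.mem_coe.2 hm)
    refine (hsub.tsum_le_tsum hle h3).trans ?_
    exact (dec_sum.mul_left (M * Real.exp (u * (η - 1 / 2)))).tsum_subtype_le _ _ (fun ρ => by positivity)
  have e2 : ∑ ρ ∈ S, ft u ρ = ZS u - ∑' ρ : (((S : Set Zt)ᶜ : Set Zt) : Type), ft u (ρ : Zt) := by rw [e1]; ring
  rw [e2]
  refine (norm_sub_le _ _).trans (add_le_add le_rfl (h2.trans (le_of_eq ?_)))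
  ring

theorem block1 {q θ α C : ℝ} (hq : 1 < q) (hθ : 1 / 2 ≤ θ) (hα : 4 * θ * (1 - θ) ≤ α) (hα1 : α ≤ 1) (hC : 0 ≤ C)
    {s0 : ℂ} (h0 : riemannZeta s0 = 0) (h1 : θ < s0.re) :
    ∃ N0 : ℕ, ∀ N : ℕ, N0 ≤ N → ∃ k : ℕ, N ≤ k ∧ (k : ℝ) ≤ N + (N : ℝ) ^ α ∧
      C * q ^ ((θ - 2) * k) < |EE (q ^ k)| := by
  classical
  have hs1 : s0.re < 1 := by
    by_contra hc
    push Not at hc
    exact riemannZeta_ne_zero_of_one_le_re hc h0
  set ρ0 : Zt := ⟨s0, h0, by linarith, hs1⟩ with hρ0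
  obtain ⟨M, hM, hb⟩ := K0_bd
  obtain ⟨C1, hC1, hef⟩ := ef
  set G : ℝ := ∑' ρ : Zt, (mu ρ : ℝ) * Real.exp (-|(ρ : ℂ).im|) with hG
  have hG0 : 0 ≤ G := tsum_nonneg fun ρ => by positivity
  set L : ℝ := Real.log q with hL
  have hL0 : 0 < L := Real.log_pos hq
  have hq0 : 0 < q := by linarith
  set η : ℝ := (θ + s0.re) / 2 with hη
  have hη1 : θ < η := by rw [hη]; linarith
  have hη2 : η < s0.re := by rw [hη]; linarith
  have hη3 : 1 / 2 < η := by linarith
  have hη4 : η < 1 := by linarith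
  set lam : ℝ := s0.re - η with hlam
  have hlam0 : 0 < lam := by rw [hlam]; linarith
  set a : ℝ := (4 * η * (1 - η) + α) / 2 with ha
  have h4η : 4 * η * (1 - η) < 4 * θ * (1 - θ) := by nlinarith
  have ha1 : 4 * η * (1 - η) < a := by rw [ha]; linarith
  have ha2 : a < α := by rw [ha]; linarith
  have ha3 : a < 1 := by linarith
  have ha0 : 0 < a := by
    have : 0 < 4 * η * (1 - η) := by
      have : 0 < 1 - η := by linarith
      positivity
    linarith
  obtain ⟨CD, hCD, hcount⟩ := count hη3 hη4 ha1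
  set lp : ℝ := min (L * lam / 2) 1 with hlp
  have hlp0 : 0 < lp := lt_min (by positivity) one_pos
  have hlp1 : lp ≤ L * lam / 2 := min_le_left _ _
  have hlp2 : lp ≤ 1 := min_le_right _ _
  set B : ℝ := L * lam with hB
  set A : ℝ := B - lp with hA
  have hA1 : B / 2 ≤ A := by rw [hA, hB]; linarith
  have hB0 : 0 < B := by rw [hB]; positivity
  set D : ℝ := C1 + 2 * C + M * G with hD
  have hD0 : 0 < D := by
    have : 0 ≤ M * G := by positivity
    linarith
  -- the coefficient of the given zero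
  set β0 : ℝ := ((mu (ρ0 : ℂ) : ℂ) * K0 ((ρ0 : ℂ) - 1 / 2)).re with hβ0
  have hmu1 : 1 ≤ mu (ρ0 : ℂ) := by
    rw [Nat.one_le_iff_ne_zero]
    intro hmu
    have hne1 : s0 ≠ 1 := by
      intro h; rw [h] at hs1; simp at hs1
    have han : AnalyticAt ℂ riemannZeta s0 := by
      have h2 : DifferentiableOn ℂ riemannZeta {s | s ≠ 1} := fun s hs => (differentiableAt_riemannZeta hs).differentiableWithinAt
      exact h2.analyticAt (isOpen_ne.mem_nhds hne1)
    have htop : analyticOrderAt riemannZeta s0 ≠ ⊤ := by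
      intro ht
      rw [analyticOrderAt_eq_top] at ht
      have h3 : ∀ᶠ w in 𝓝 (s0 - 1 / 2), XX w = 0 := by
        have hcont : Tendsto (fun w : ℂ => w + 1 / 2) (𝓝 (s0 - 1 / 2)) (𝓝 s0) := by
          have : ContinuousAt (fun w : ℂ => w + 1 / 2) (s0 - 1 / 2) := by fun_prop
          have h4 := this.tendsto
          rwa [sub_add_cancel] at h4
        have hre : ∀ᶠ w in 𝓝 s0, 1 / 2 ≤ w.re := by
          have h5 : ∀ᶠ w in 𝓝 s0, 1 / 2 < w.re :=
            Complex.continuous_re.continuousAt.eventually (lt_mem_nhds (show 1 / 2 < s0.re by linarith))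
          exact h5.mono fun w hw => hw.le
        filter_upwards [hcont.eventually (ht.and hre)] with w hw
        have := DX.XX_of_zeta hw.2 hw.1
        rwa [add_sub_cancel_right] at this
      have han2 : AnalyticOnNhd ℂ XX univ := fun z _ => DX.cls_XX.d.analyticAt z
      exact DX.XX_ne (han2.eqOn_zero_of_preconnected_of_eventuallyEq_zero isPreconnected_univ (mem_univ _) h3
        (mem_univ (1 / 2)))
    have h5 : analyticOrderAt riemannZeta s0 = 0 := by
      have h6 : analyticOrderNatAt riemannZeta s0 = 0 := hmu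
      unfold analyticOrderNatAt at h6
      rw [ENat.toNat_eq_zero] at h6
      exact h6.resolve_right htop
    rw [han.analyticOrderAt_eq_zero] at h5
    exact h5 h0
  have hβpos : 0 < β0 := by
    rw [hβ0]
    have : ((mu (ρ0 : ℂ) : ℂ) * K0 ((ρ0 : ℂ) - 1 / 2)).re = (mu (ρ0 : ℂ) : ℝ) * (K0 ((ρ0 : ℂ) - 1 / 2)).re := by
      rw [← Complex.ofReal_natCast, Complex.re_ofReal_mul]
    rw [this]
    have h2 := K0_re (zt_re ρ0)
    have h3 : (1 : ℝ) ≤ mu (ρ0 : ℂ) := by exact_mod_cast hmu1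
    positivity
  -- constants for the asymptotics
  set C3 : ℝ := CD * (L + 2) ^ a with hC3
  have hC30 : 0 < C3 := by positivity
  set C4 : ℝ := C3 + 1 with hC4
  have hC40 : 0 < C4 := by positivity
  have ev1 := asym (a := a) (C4 := C4) (K := |Real.log (8 * C4 / lp)|) (c := B / 4) ha3 hC40 (by positivity)
  have ev2 : ∀ᶠ N : ℕ in atTop, C3 * (N : ℝ) ^ a ≤ (N : ℝ) ^ α := by
    have h2 : ∀ᶠ x : ℝ in atTop, C3 * x ^ a ≤ x ^ α := by
      have h3 := (tendsto_rpow_atTop (show 0 < α - a by linarith)).eventually_ge_atTop C3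
      filter_upwards [h3, eventually_gt_atTop 0] with x h4 h5
      calc C3 * x ^ a ≤ x ^ (α - a) * x ^ a := by gcongr
        _ = x ^ α := by rw [← Real.rpow_add h5]; congr 1; ring
    exact tendsto_natCast_atTop_atTop.eventually h2
  have ev3 : ∀ᶠ N : ℕ in atTop, D * Real.exp (-(B / 4 * (N : ℝ))) < β0 := by
    have h2 : Tendsto (fun N : ℕ => D * Real.exp (-(B / 4 * (N : ℝ)))) atTop (𝓝 0) := by
      have h3 : Tendsto (fun N : ℕ => B / 4 * (N : ℝ)) atTop atTop :=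
        tendsto_natCast_atTop_atTop.const_mul_atTop (by positivity)
      have h4 := (Real.tendsto_exp_neg_atTop_nhds_zero.comp h3).const_mul D
      rwa [mul_zero] at h4
    exact h2.eventually_lt_const hβpos
  have ev4 : ∀ᶠ N : ℕ in atTop, |s0.im| ≤ N * L := by
    have h3 : Tendsto (fun N : ℕ => (N : ℝ) * L) atTop atTop :=
      tendsto_natCast_atTop_atTop.atTop_mul_const hL0
    exact h3.eventually_ge_atTop _
  obtain ⟨N0, hN0⟩ := eventually_atTop.1 ((ev1.and ev2).and (ev3.and (ev4.and (eventually_ge_atTop 1))))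
  refine ⟨N0, fun N hN => ?_⟩
  obtain ⟨⟨hN1, hN2⟩, hN3, hN4, hN5⟩ := hN0 N hN
  by_contra hcon
  push Not at hcon
  have hNr : (1 : ℝ) ≤ N := by exact_mod_cast hN5
  set T : ℝ := N * L + 1 with hT
  have hT1 : 1 ≤ T := by
    have : 0 ≤ (N : ℝ) * L := by positivity
    linarith
  set S : Finset Zt := (fin_zeros η T).toFinset with hS
  have hSmem : ∀ ρ : Zt, ρ ∈ S ↔ η ≤ (ρ : ℂ).re ∧ |(ρ : ℂ).im| ≤ T := by
    intro ρ
    rw [hS, Set.Finite.mem_toFinset]; rfl
  have hcardS : (S.card : ℝ) ≤ C3 * (N : ℝ) ^ a := by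
    refine (hcount T hT1 S fun ρ hρ => (hSmem ρ).1 hρ).trans ?_
    have h2 : T ≤ (L + 2) * N := by
      rw [hT]; nlinarith
    calc CD * T ^ a ≤ CD * ((L + 2) * N) ^ a := by gcongr
      _ = C3 * (N : ℝ) ^ a := by
          rw [Real.mul_rpow (by positivity) (by positivity), hC3]; ring
  have hρ0S : ρ0 ∈ S := by
    rw [hSmem]
    refine ⟨hη2.le, ?_⟩
    show |s0.im| ≤ T
    rw [hT]; linarith
  have hcardN : (S.card : ℝ) ≤ (N : ℝ) ^ α := hcardS.trans hN2
  have hNα : (N : ℝ) ^ α ≤ N := by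
    calc (N : ℝ) ^ α ≤ (N : ℝ) ^ (1 : ℝ) := Real.rpow_le_rpow_of_exponent_le hNr hα1
      _ = N := Real.rpow_one _
  set z : Zt → ℂ := fun ρ => cexp (L * ((ρ : ℂ) - η)) with hz
  set b : Zt → ℂ := fun ρ => (mu (ρ : ℂ) : ℂ) * K0 ((ρ : ℂ) - 1 / 2) with hbdef
  have hznorm : ∀ ρ : Zt, Real.log ‖z ρ‖ = L * ((ρ : ℂ).re - η) := by
    intro ρ
    rw [hz]; simp only
    rw [Complex.norm_exp, Real.log_exp, Complex.re_ofReal_mul, Complex.sub_re, Complex.ofReal_re]
  have hsum : ∀ k : ℕ, N ≤ k → k < N + S.card → ‖∑ ρ ∈ S, b ρ * z ρ ^ k‖ ≤ D := by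
    intro k hk1 hk2
    have hk3 : (k : ℝ) ≤ N + (N : ℝ) ^ α := by
      have : (k : ℝ) ≤ N + S.card := by exact_mod_cast hk2.le
      linarith
    have hk0 : (0 : ℝ) ≤ k := Nat.cast_nonneg k
    set u : ℝ := k * L with hu
    have hu0 : 0 ≤ u := by positivity
    have huT : u ≤ 2 * T := by
      have : (k : ℝ) ≤ 2 * N := by linarith
      rw [hu, hT]
      nlinarith
    have hexpu : Real.exp u = q ^ k := by
      rw [hu, Real.exp_nat_mul, hL, Real.exp_log hq0]
    have h2 := hef u hu0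
    rw [hexpu] at h2
    have h3 := hcon k hk1 hk3
    have h4 : ‖ZS u‖ ≤ (C1 + 2 * C) * Real.exp (u * (η - 1 / 2)) := by
      have h5 : ‖ZS u‖ ≤ C1 + 2 * Real.exp (3 / 2 * u) * |EE (q ^ k)| := by
        have e : ZS u = (ZS u + ((2 * Real.exp (3 / 2 * u) * EE (q ^ k) : ℝ) : ℂ)) -
            ((2 * Real.exp (3 / 2 * u) * EE (q ^ k) : ℝ) : ℂ) := by ring
        calc ‖ZS u‖ ≤ ‖ZS u + ((2 * Real.exp (3 / 2 * u) * EE (q ^ k) : ℝ) : ℂ)‖ +
              ‖((2 * Real.exp (3 / 2 * u) * EE (q ^ k) : ℝ) : ℂ)‖ := by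
                conv_lhs => rw [e]
                exact norm_sub_le _ _
          _ ≤ _ := by
              refine add_le_add h2 (le_of_eq ?_)
              rw [Complex.norm_real, Real.norm_eq_abs, abs_mul, abs_of_pos (by positivity)]
      have h6 : q ^ ((θ - 2) * k) = Real.exp (u * (θ - 1 / 2)) * Real.exp (-(3 / 2 * u)) := by
        rw [Real.rpow_def_of_pos hq0, ← Real.exp_add, ← hL, hu]; congr 1; ring
      have h7 : Real.exp (3 / 2 * u) * Real.exp (-(3 / 2 * u)) = 1 := by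
        rw [← Real.exp_add, add_neg_cancel, Real.exp_zero]
      have h8 : Real.exp (u * (θ - 1 / 2)) ≤ Real.exp (u * (η - 1 / 2)) :=
        Real.exp_le_exp.2 (mul_le_mul_of_nonneg_left (by linarith) hu0)
      have h9 : 1 ≤ Real.exp (u * (η - 1 / 2)) := Real.one_le_exp (mul_nonneg hu0 (by linarith))
      calc ‖ZS u‖ ≤ C1 + 2 * Real.exp (3 / 2 * u) * |EE (q ^ k)| := h5
        _ ≤ C1 + 2 * Real.exp (3 / 2 * u) * (C * q ^ ((θ - 2) * k)) := by gcongr
        _ = C1 + 2 * C * (Real.exp (u * (θ - 1 / 2)) * (Real.exp (3 / 2 * u) * Real.exp (-(3 / 2 * u)))) := by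
            rw [h6]; ring
        _ ≤ C1 * Real.exp (u * (η - 1 / 2)) + 2 * C * Real.exp (u * (η - 1 / 2)) := by
            rw [h7, mul_one]
            refine add_le_add (le_mul_of_one_le_right hC1.le h9) ?_
            gcongr
        _ = _ := by ring
    have h10 := part_bound hM hb (η := η) (T := T) hη3.le S (fun ρ h1 h2 => (hSmem ρ).2 ⟨h1, h2⟩) hu0 huT
    have h11 : ∑ ρ ∈ S, b ρ * z ρ ^ k = cexp (-(u * (η - 1 / 2))) * ∑ ρ ∈ S, ft u ρ := by
      rw [Finset.mul_sum]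
      refine Finset.sum_congr rfl fun ρ _ => ?_
      rw [hz, hbdef, ft]; simp only
      rw [← Complex.exp_nat_mul]
      have e : cexp ((k : ℂ) * (L * ((ρ : ℂ) - η))) = cexp (-(u * (η - 1 / 2))) * cexp (u * ((ρ : ℂ) - 1 / 2)) := by
        rw [← Complex.exp_add, hu]; congr 1; push_cast; ring
      rw [e]; ring
    have h12 : ‖cexp (-((u : ℂ) * (η - 1 / 2)))‖ = Real.exp (-(u * (η - 1 / 2))) := by
      rw [Complex.norm_exp]; congr 1
      have : (-((u : ℂ) * (η - 1 / 2))) = ((-(u * (η - 1 / 2)) : ℝ) : ℂ) := by push_cast; ring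
      rw [this, Complex.ofReal_re]
    rw [h11, norm_mul, h12]
    have h13 : Real.exp (-(u * (η - 1 / 2))) * Real.exp (u * (η - 1 / 2)) = 1 := by
      rw [← Real.exp_add, neg_add_cancel, Real.exp_zero]
    calc Real.exp (-(u * (η - 1 / 2))) * ‖∑ ρ ∈ S, ft u ρ‖ ≤
          Real.exp (-(u * (η - 1 / 2))) * ((C1 + 2 * C) * Real.exp (u * (η - 1 / 2)) + M * G * Real.exp (u * (η - 1 / 2))) := by
          gcongr
          exact h10.trans (by linarith)
      _ = (C1 + 2 * C + M * G) * (Real.exp (-(u * (η - 1 / 2))) * Real.exp (u * (η - 1 / 2))) := by ring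
      _ = D := by rw [h13, mul_one]
  have key := sep S z b (A := A) (B := B) (by linarith) (by rw [hA]; linarith) (by rw [hA]; linarith)
    (fun ρ _ => Complex.exp_ne_zero _) hρ0S (by
      rw [hznorm ρ0, hB, hlam]) (fun ρ _ => by
      have e : (b ρ).re = (mu (ρ : ℂ) : ℝ) * (K0 ((ρ : ℂ) - 1 / 2)).re := by
        rw [hbdef]; simp only
        rw [← Complex.ofReal_natCast, Complex.re_ofReal_mul]
      rw [e]
      exact mul_nonneg (Nat.cast_nonneg _) (K0_re (zt_re ρ)).le) hN5 hsum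
  have hBA : B - A = lp := by rw [hA]; ring
  rw [hBA] at key
  set n : ℕ := S.card with hn
  have hn1 : (n : ℝ) + 1 ≤ C4 * (N : ℝ) ^ a := by
    have h2 : 1 ≤ (N : ℝ) ^ a := Real.one_le_rpow hNr ha0.le
    rw [hC4, add_mul, one_mul]
    linarith
  have hn0 : (0 : ℝ) ≤ n := Nat.cast_nonneg n
  set Q : ℝ := 8 * (n + 1) / lp with hQ
  have hQ0 : 0 < Q := by positivity
  have hnQ : (n : ℝ) ≤ Q := by
    rw [hQ, le_div_iff₀ hlp0]
    nlinarith
  have hQlog : Real.log Q ≤ |Real.log (8 * C4 / lp)| + Real.log N := by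
    have hNp : (0 : ℝ) < N := by linarith
    have h2 : Q ≤ 8 * C4 / lp * N := by
      rw [hQ]
      have h3 : (n : ℝ) + 1 ≤ C4 * N := by
        refine hn1.trans ?_
        have : (N : ℝ) ^ a ≤ N := by
          calc (N : ℝ) ^ a ≤ (N : ℝ) ^ (1 : ℝ) := Real.rpow_le_rpow_of_exponent_le hNr ha3.le
            _ = N := Real.rpow_one _
        gcongr
      calc 8 * ((n : ℝ) + 1) / lp ≤ 8 * (C4 * N) / lp := by gcongr
        _ = _ := by ring
    calc Real.log Q ≤ Real.log (8 * C4 / lp * N) := Real.log_le_log hQ0 h2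
      _ = Real.log (8 * C4 / lp) + Real.log N := Real.log_mul (by positivity) hNp.ne'
      _ ≤ _ := by linarith [le_abs_self (Real.log (8 * C4 / lp))]
  have hpow : (n : ℝ) * Q ^ n ≤ Real.exp (B / 4 * N) := by
    calc (n : ℝ) * Q ^ n ≤ Q * Q ^ n := by gcongr
      _ = Real.exp (((n + 1 : ℕ) : ℝ) * Real.log Q) := by
          rw [Real.exp_nat_mul, Real.exp_log hQ0, pow_succ]; ring
      _ ≤ Real.exp (B / 4 * N) := by
          refine Real.exp_le_exp.2 (le_trans ?_ hN1)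
          push_cast
          have h5 : 0 ≤ |Real.log (8 * C4 / lp)| + Real.log N :=
            add_nonneg (abs_nonneg _) (Real.log_nonneg hNr)
          calc ((n : ℝ) + 1) * Real.log Q ≤ ((n : ℝ) + 1) * (|Real.log (8 * C4 / lp)| + Real.log N) := by
                gcongr
            _ ≤ _ := by gcongr
  have hfin : β0 ≤ D * Real.exp (-(B / 4 * N)) := by
    calc β0 ≤ n * Q ^ n * Real.exp (-(A * N)) * D := key
      _ ≤ Real.exp (B / 4 * N) * Real.exp (-(B / 2 * N)) * D := by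
          have hNp : (0 : ℝ) ≤ N := by linarith
          gcongr
      _ = D * Real.exp (-(B / 4 * N)) := by
          rw [← Real.exp_add, mul_comm]; congr 2; ring
  linarith

end Pool.Agent.Y746.PT
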