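import Pool.Agent.Y746.PT.Ker

/-! # The explicit formula for `∑ Λ(n) n / (n + x)^3` -/

set_option autoImplicit false

open Complex Filter Topology Set MeasureTheory
open scoped ComplexConjugate
open Pool.Agent.H24R2.JP (XX)

namespace Pool.Agent.Y746.PT

open Pool.Agent.Y23

/-- the smoothed sum over prime powers -/
noncomputable def SS (x : ℝ) : ℝ := ∑' n : ℕ, ArithmeticFunction.vonMangoldt n * ((n : ℝ) / (n + x) ^ 3)

/-- the error term -/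
noncomputable def EE (x : ℝ) : ℝ := SS x - 1 / (2 * x)

/-- the sum over the zeros -/
noncomputable def ZS (u : ℝ) : ℂ := ∑' ρ : Zt, (mu ρ : ℂ) * (K0 ((ρ : ℂ) - 1 / 2) * cexp (u * ((ρ : ℂ) - 1 / 2)))

lemma K0_de : ∃ M : ℝ, 0 < M ∧ De K0 M := by
  obtain ⟨M, hM, hb⟩ := K0_bd
  refine ⟨M, hM, fun w hw => K0_diff hw, fun w hw => (hb w hw).trans ?_⟩
  have : Real.exp (-(2 * |w.im|)) ≤ Real.exp (-|w.im|) := Real.exp_le_exp.2 (by linarith [abs_nonneg w.im])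
  gcongr

lemma h_de (u : ℝ) : ∃ M : ℝ, 0 ≤ M ∧ De (fun w => K0 w * cexp (u * w)) M := by
  obtain ⟨M, hM, hb⟩ := K0_de
  refine ⟨M * Real.exp |u|, by positivity, fun w hw => (hb.1 w hw).mul (by fun_prop), fun w hw => ?_⟩
  rw [norm_mul, Complex.norm_exp]
  have h1 : ((u : ℂ) * w).re ≤ |u| := by
    rw [Complex.re_ofReal_mul]
    calc u * w.re ≤ |u * w.re| := le_abs_self _
      _ = |u| * |w.re| := abs_mul _ _
      _ ≤ |u| * 1 := by gcongr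
      _ = |u| := mul_one _
  calc ‖K0 w‖ * Real.exp ((u : ℂ) * w).re ≤ (M * Real.exp (-|w.im|)) * Real.exp |u| := by
        gcongr
        exact hb.2 w hw
    _ = _ := by ring

lemma vert_int : VerticalIntegrable (mellin ph) (3 / 2) := by
  unfold VerticalIntegrable
  obtain ⟨M, hM, hb⟩ := K0_de
  have h1 := (de_int hb (σ := 1) (by norm_num)).const_mul (1 / 2)
  refine h1.congr (Eventually.of_forall fun y => ?_)
  simp only
  rw [mellin_ph (by simp; norm_num) (by simp; norm_num), K0, H370.mk_eq]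
  have e1 : (((3 / 2 : ℝ) : ℂ) + y * I + 1) = 3 / 2 + (((1 : ℝ) : ℂ) + y * I) := by push_cast; ring
  have e2 : (2 - (((3 / 2 : ℝ) : ℂ) + y * I)) = 3 / 2 - (((1 : ℝ) : ℂ) + y * I) := by push_cast; ring
  rw [e1, e2]; ring

lemma ph_cont {x : ℝ} (hx : 0 < x) : ContinuousAt ph x := by
  unfold ph
  have h1 : ContinuousAt (fun t : ℝ => t / (1 + t) ^ 3) x := by
    refine ContinuousAt.div continuousAt_id (by fun_prop) ?_
    positivity
  exact Complex.continuous_ofReal.continuousAt.comp h1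

lemma one_term (u : ℝ) {n : ℕ} (hn : 0 < n) :
    ∫ v : ℝ, Lam n * (n : ℂ) ^ (-(⟨3 / 2, v⟩ : ℂ)) * (K0 ⟨1, v⟩ * cexp (u * ⟨1, v⟩)) =
      Lam n * ((4 * Real.pi * Real.exp (-(u / 2)) : ℝ) * ph (n / Real.exp u)) := by
  have hn0 : (0 : ℝ) < n := by exact_mod_cast hn
  have hx : (0 : ℝ) < n / Real.exp u := by positivity
  have key := mellinInv_mellin_eq (3 / 2) ph hx (mellin_conv (by simp; norm_num) (by simp; norm_num)) vert_int (ph_cont hx)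
  rw [← key]
  unfold mellinInv
  have hpi := Real.pi_ne_zero
  have e0 : ∀ v : ℝ, Lam n * (n : ℂ) ^ (-(⟨3 / 2, v⟩ : ℂ)) * (K0 ⟨1, v⟩ * cexp (u * ⟨1, v⟩)) =
      (Lam n * ((2 * Real.exp (-(u / 2)) : ℝ) : ℂ)) *
        ((((n : ℝ) / Real.exp u : ℝ) : ℂ) ^ (-(((3 / 2 : ℝ) : ℂ) + v * I)) • mellin ph (((3 / 2 : ℝ) : ℂ) + v * I)) := by
    intro v
    rw [mellin_ph (by simp; norm_num) (by simp; norm_num)]
    have e1 : (((3 / 2 : ℝ) : ℂ) + v * I + 1) = 3 / 2 + (⟨1, v⟩ : ℂ) := by rw [H370.mk_eq]; push_cast; ring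
    have e2 : (2 - (((3 / 2 : ℝ) : ℂ) + v * I)) = 3 / 2 - (⟨1, v⟩ : ℂ) := by rw [H370.mk_eq]; push_cast; ring
    have e3 : Gamma (3 / 2 + (⟨1, v⟩ : ℂ)) * Gamma (3 / 2 - (⟨1, v⟩ : ℂ)) = K0 ⟨1, v⟩ := rfl
    have e4 : (((n : ℝ) / Real.exp u : ℝ) : ℂ) ^ (-(((3 / 2 : ℝ) : ℂ) + v * I)) =
        (n : ℂ) ^ (-(⟨3 / 2, v⟩ : ℂ)) * (cexp (u / 2) * cexp (u * ⟨1, v⟩)) := by
      rw [H370.term_eq n hn, Complex.cpow_def_of_ne_zero (by exact_mod_cast hx.ne'), ← Complex.ofReal_log hx.le,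
        Real.log_div hn0.ne' (Real.exp_pos u).ne', Real.log_exp, ← Complex.exp_add, ← Complex.exp_add,
        H370.mk_eq, H370.mk_eq]
      congr 1
      push_cast; ring
    rw [e1, e2, e3, e4, smul_eq_mul]
    have e5 : ((2 * Real.exp (-(u / 2)) : ℝ) : ℂ) * cexp (u / 2) = 2 := by
      push_cast
      rw [mul_assoc, ← Complex.exp_add]
      have : -((u : ℂ) / 2) + u / 2 = 0 := by ring
      rw [this, Complex.exp_zero, mul_one]
    linear_combination (-(Lam n * (n : ℂ) ^ (-(⟨3 / 2, v⟩ : ℂ)) * cexp (u * ⟨1, v⟩) * K0 ⟨1, v⟩) / 2) * e5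
  rw [integral_congr_ae (Eventually.of_forall e0), integral_const_mul]
  rw [Complex.real_smul]
  generalize (∫ v : ℝ, ((((n : ℝ) / Real.exp u : ℝ) : ℂ) ^ (-(((3 / 2 : ℝ) : ℂ) + v * I)) •
    mellin ph (((3 / 2 : ℝ) : ℂ) + v * I))) = J
  push_cast
  have hpi' : (Real.pi : ℂ) ≠ 0 := by exact_mod_cast hpi
  field_simp
  ring

lemma prime_part (u : ℝ) : (∫ y : ℝ, H370.DD Lam ⟨3 / 2, y⟩ * (K0 ⟨1, y⟩ * cexp (u * ⟨1, y⟩))) =
    ((4 * Real.pi * Real.exp (3 / 2 * u) * SS (Real.exp u) : ℝ) : ℂ) := by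
  obtain ⟨M, hM, hh⟩ := h_de u
  have h1 := (prime_line2 hh).tsum_eq
  rw [← h1]
  have hterm : ∀ n : ℕ, (∫ v : ℝ, Lam n * (n : ℂ) ^ (-(⟨3 / 2, v⟩ : ℂ)) * (K0 ⟨1, v⟩ * cexp (u * ⟨1, v⟩))) =
      ((4 * Real.pi * Real.exp (3 / 2 * u) * (ArithmeticFunction.vonMangoldt n *
        ((n : ℝ) / (n + Real.exp u) ^ 3)) : ℝ) : ℂ) := by
    intro n
    rcases Nat.eq_zero_or_pos n with h | h
    · subst h
      simp [Lam_zero]
    · rw [one_term u h, Lam, ph, ← Complex.ofReal_mul, ← Complex.ofReal_mul]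
      congr 1
      have hx := Real.exp_pos u
      have e1 : Real.exp (3 / 2 * u) = Real.exp (-(u / 2)) * Real.exp u ^ 2 := by
        rw [← Real.exp_nat_mul, ← Real.exp_add]; congr 1; push_cast; ring
      have e2 : (n : ℝ) / Real.exp u / (1 + (n : ℝ) / Real.exp u) ^ 3 = Real.exp u ^ 2 * ((n : ℝ) / (n + Real.exp u) ^ 3) := by
        have h3 : (0 : ℝ) < n + Real.exp u := by positivity
        have : 1 + (n : ℝ) / Real.exp u = (n + Real.exp u) / Real.exp u := by field_simp; ring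
        rw [this]
        field_simp
      rw [e1, e2]; ring
  simp only [hterm]
  rw [← Complex.ofReal_tsum, tsum_mul_left]
  rfl

theorem ef : ∃ C : ℝ, 0 < C ∧ ∀ u : ℝ, 0 ≤ u →
    ‖ZS u + ((2 * Real.exp (3 / 2 * u) * EE (Real.exp u) : ℝ) : ℂ)‖ ≤ C := by
  obtain ⟨M, hM, hK⟩ := K0_de
  obtain ⟨c0, C0, _, b0⟩ := YL_line (x := 0) (by norm_num) Rg_zero
  obtain ⟨c1, C1, _, b1⟩ := YL_line (x := 1) (by norm_num) Rg_one
  have i0 : Integrable (fun y : ℝ => YL ⟨0, y⟩ * K0 ⟨0, y⟩) := de_mul_int c0 b0 hK (by norm_num)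
  have i1 : Integrable (fun y : ℝ => YL ⟨1, y⟩ * K0 ⟨1, y⟩) := de_mul_int c1 b1 hK (by norm_num)
  have i2 : Integrable (fun y : ℝ => H370.DD Lam ⟨3 / 2, y⟩ * K0 ⟨1, y⟩) := de_mul_int DD_cont DD_bd hK (by norm_num)
  set B0 : ℝ := ∫ y : ℝ, ‖YL ⟨0, y⟩ * K0 ⟨0, y⟩‖ with hB0
  set B1 : ℝ := ∫ y : ℝ, ‖YL ⟨1, y⟩ * K0 ⟨1, y⟩‖ with hB1
  set B2 : ℝ := ∫ y : ℝ, ‖H370.DD Lam ⟨3 / 2, y⟩ * K0 ⟨1, y⟩‖ with hB2
  have hB0' : 0 ≤ B0 := integral_nonneg fun y => norm_nonneg _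
  have hB1' : 0 ≤ B1 := integral_nonneg fun y => norm_nonneg _
  have hB2' : 0 ≤ B2 := integral_nonneg fun y => norm_nonneg _
  have hpi := Real.pi_pos
  refine ⟨(B0 + B1 + B2) / (2 * Real.pi) + 1, by positivity, fun u hu => ?_⟩
  obtain ⟨Mu, hMu, hh⟩ := h_de u
  have key := four hMu hh
  have hK12 : K0 (1 / 2) = 1 := by
    unfold K0
    have e1 : (3 / 2 + 1 / 2 : ℂ) = ((1 : ℕ) : ℂ) + 1 := by norm_num
    have e2 : (3 / 2 - 1 / 2 : ℂ) = 1 := by norm_num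
    rw [e1, e2, Complex.Gamma_nat_eq_factorial, Complex.Gamma_one]
    simp
  have hneg : ∀ y : ℝ, K0 (-⟨1, y⟩) * cexp (u * (-⟨1, y⟩)) = K0 ⟨1, y⟩ * cexp (-(u * ⟨1, y⟩)) := by
    intro y
    rw [K0_neg, mul_neg]
  simp only [hneg] at key
  rw [prime_part u, hK12] at key
  -- bounds
  have r0 : ‖∫ y : ℝ, YL ⟨0, y⟩ * (K0 ⟨0, y⟩ * cexp (u * ⟨0, y⟩))‖ ≤ B0 := by
    refine norm_integral_le_of_norm_le i0.norm (Eventually.of_forall fun y => ?_)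
    rw [← mul_assoc, norm_mul]
    have : ‖cexp ((u : ℂ) * ⟨0, y⟩)‖ = 1 := by
      rw [Complex.norm_exp, Complex.re_ofReal_mul]; simp
    rw [this, mul_one]
  have hexp : ∀ y : ℝ, ‖cexp (-((u : ℂ) * ⟨1, y⟩))‖ ≤ 1 := by
    intro y
    rw [Complex.norm_exp, Complex.neg_re, Complex.re_ofReal_mul, Real.exp_le_one_iff]
    simp only [mul_one]
    linarith
  have r1 : ‖∫ y : ℝ, YL ⟨1, y⟩ * (K0 ⟨1, y⟩ * cexp (-(u * ⟨1, y⟩)))‖ ≤ B1 := by
    refine norm_integral_le_of_norm_le i1.norm (Eventually.of_forall fun y => ?_)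
    rw [← mul_assoc, norm_mul]
    exact mul_le_of_le_one_right (norm_nonneg _) (hexp y)
  have r2 : ‖∫ y : ℝ, H370.DD Lam ⟨3 / 2, y⟩ * (K0 ⟨1, y⟩ * cexp (-(u * ⟨1, y⟩)))‖ ≤ B2 := by
    refine norm_integral_le_of_norm_le i2.norm (Eventually.of_forall fun y => ?_)
    rw [← mul_assoc, norm_mul]
    exact mul_le_of_le_one_right (norm_nonneg _) (hexp y)
  set I0 := ∫ y : ℝ, YL ⟨0, y⟩ * (K0 ⟨0, y⟩ * cexp (u * ⟨0, y⟩))
  set I1 := ∫ y : ℝ, YL ⟨1, y⟩ * (K0 ⟨1, y⟩ * cexp (-(u * ⟨1, y⟩)))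
  set I2 := ∫ y : ℝ, H370.DD Lam ⟨3 / 2, y⟩ * (K0 ⟨1, y⟩ * cexp (-(u * ⟨1, y⟩)))
  have hZ : (∑' ρ : Zt, (mu ρ : ℂ) * (K0 ((ρ : ℂ) - 1 / 2) * cexp (u * ((ρ : ℂ) - 1 / 2)))) = ZS u := rfl
  rw [hZ] at key
  have hpc : (2 * Real.pi : ℂ) ≠ 0 := by
    have : (Real.pi : ℂ) ≠ 0 := by exact_mod_cast hpi.ne'
    exact mul_ne_zero two_ne_zero this
  have hx := Real.exp_pos u
  have e1 : (((2 * Real.exp (3 / 2 * u) * EE (Real.exp u) : ℝ)) : ℂ) * (2 * Real.pi) =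
      ((4 * Real.pi * Real.exp (3 / 2 * u) * SS (Real.exp u) : ℝ) : ℂ) - 2 * Real.pi * (1 * cexp (u * (1 / 2))) := by
    have e2 : cexp ((u : ℂ) * (1 / 2)) = ((Real.exp (u / 2) : ℝ) : ℂ) := by
      push_cast; congr 1; ring
    rw [e2]
    have e3 : Real.exp (3 / 2 * u) = Real.exp (u / 2) * Real.exp u := by
      rw [← Real.exp_add]; ring_nf
    unfold EE
    rw [e3]
    push_cast
    have hxc : cexp (u : ℂ) ≠ 0 := Complex.exp_ne_zero _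
    field_simp
    ring
  have e4 : (ZS u + ((2 * Real.exp (3 / 2 * u) * EE (Real.exp u) : ℝ) : ℂ)) * (2 * Real.pi) = I0 + I1 - I2 := by
    rw [add_mul, e1]
    linear_combination key
  have e5 : ‖ZS u + ((2 * Real.exp (3 / 2 * u) * EE (Real.exp u) : ℝ) : ℂ)‖ * (2 * Real.pi) ≤ B0 + B1 + B2 := by
    have : ‖(2 * Real.pi : ℂ)‖ = 2 * Real.pi := by
      rw [norm_mul, Complex.norm_real, Real.norm_of_nonneg hpi.le]; simp
    rw [← this, ← norm_mul, e4]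
    exact (norm_sub_le _ _).trans (add_le_add ((norm_add_le _ _).trans (add_le_add r0 r1)) r2)
  have e6 : ‖ZS u + ((2 * Real.exp (3 / 2 * u) * EE (Real.exp u) : ℝ) : ℂ)‖ ≤ (B0 + B1 + B2) / (2 * Real.pi) := by
    rw [le_div_iff₀ (by positivity)]
    exact e5
  linarith

end Pool.Agent.Y746.PT
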