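import Pool.Agent.Y23.We5
import Pool.Agent.Y746.PT.Rect
import Pool.Agent.Y746.DX.D

/-! # The explicit formula for kernels with exponential decay (adapted from `Pool.Agent.Y23.We3` and
`Pool.Agent.Y23.We4`) -/

set_option autoImplicit false

open Complex Filter Topology Set MeasureTheory
open scoped ComplexConjugate
open Pool.Agent.H24R2.JP (XX)

namespace Pool.Agent.Y746.PT

open Pool.Agent.Y23

/-- holomorphic on the strip `|Re w| ≤ 1` with exponential decay -/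
def De (h : ℂ → ℂ) (M : ℝ) : Prop :=
  (∀ w : ℂ, |w.re| ≤ 1 → DifferentiableAt ℂ h w) ∧ ∀ w : ℂ, |w.re| ≤ 1 → ‖h w‖ ≤ M * Real.exp (-|w.im|)

lemma cube_exp {v : ℝ} (hv : 0 ≤ v) : (1 + v) ^ 3 * Real.exp (-v) ≤ 18 := by
  have h1 := Real.pow_div_factorial_le_exp (1 + v) (by positivity) 3
  have h2 : Real.exp (1 + v) = Real.exp 1 * Real.exp v := Real.exp_add _ _
  have h3 : ((3 : ℕ).factorial : ℝ) = 6 := by norm_num [Nat.factorial]
  rw [h3, h2, div_le_iff₀ (by norm_num)] at h1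
  rw [Real.exp_neg, ← div_eq_mul_inv, div_le_iff₀ (Real.exp_pos _)]
  have h4 := Real.exp_one_lt_d9
  have h5 := Real.exp_pos v
  nlinarith

lemma lin_exp {v : ℝ} (hv : 0 ≤ v) : (1 + v) * Real.exp (-v) ≤ 18 * (1 + v ^ 2)⁻¹ := by
  have h1 := cube_exp hv
  rw [← div_eq_mul_inv, le_div_iff₀ (by positivity)]
  refine le_trans ?_ h1
  have h2 := Real.exp_pos (-v)
  have : (1 + v) * (1 + v ^ 2) ≤ (1 + v) ^ 3 := by nlinarith
  nlinarith

lemma de_line {h : ℂ → ℂ} {M : ℝ} (hh : De h M) {σ : ℝ} (hσ : |σ| ≤ 1) (v : ℝ) :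
    ‖h (⟨σ, v⟩ : ℂ)‖ ≤ M * Real.exp (-|v|) := hh.2 ⟨σ, v⟩ hσ

lemma de_cont {h : ℂ → ℂ} {M : ℝ} (hh : De h M) {σ : ℝ} (hσ : |σ| ≤ 1) :
    Continuous (fun v : ℝ => h (⟨σ, v⟩ : ℂ)) := by
  rw [continuous_iff_continuousAt]
  intro v
  exact ContinuousAt.comp (f := fun y : ℝ => (⟨σ, y⟩ : ℂ)) (x := v) (hh.1 ⟨σ, v⟩ hσ).continuousAt
    (line_ct σ).continuousAt

lemma de_on {h : ℂ → ℂ} {M : ℝ} (hh : De h M) {a b c d : ℝ} (ha : -1 ≤ a) (hb : b ≤ 1) :
    DifferentiableOn ℂ h (Set.Icc a b ×ℂ Set.Icc c d) := by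
  intro s hs
  have h1 := hs.1
  rw [mem_preimage] at h1
  exact (hh.1 s (by rw [abs_le]; constructor <;> linarith [h1.1, h1.2])).differentiableWithinAt

lemma ev_de {h : ℂ → ℂ} {M : ℝ} (hh : De h M) : De (ev h) (2 * M) := by
  constructor
  · intro w hw
    have h1 := hh.1 w hw
    have h2 := hh.1 (-w) (by rw [Complex.neg_re, abs_neg]; exact hw)
    exact h1.add (h2.comp w differentiableAt_id.neg)
  · intro w hw
    have h1 := hh.2 w hw
    have h2 := hh.2 (-w) (by rw [Complex.neg_re, abs_neg]; exact hw)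
    rw [Complex.neg_im, abs_neg] at h2
    refine (norm_add_le _ _).trans ?_
    linarith

lemma de_mul_int {φ : ℝ → ℂ} (hc : Continuous φ) {C : ℝ} (hb : ∀ y, ‖φ y‖ ≤ C * (1 + |y|)) {h : ℂ → ℂ} {M : ℝ}
    (hh : De h M) {σ : ℝ} (hσ : |σ| ≤ 1) : Integrable (fun y => φ y * h ⟨σ, y⟩) := by
  have hM : 0 ≤ M := by
    have := (norm_nonneg _).trans (de_line hh hσ 0)
    simpa using this
  have hC : 0 ≤ C := by
    have := (norm_nonneg _).trans (hb 0)
    simpa using this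
  refine ((integrable_inv_one_add_sq).const_mul (C * M * 18)).mono' (hc.mul (de_cont hh hσ)).aestronglyMeasurable
    (Eventually.of_forall fun y => ?_)
  rw [norm_mul]
  calc ‖φ y‖ * ‖h ⟨σ, y⟩‖ ≤ (C * (1 + |y|)) * (M * Real.exp (-|y|)) :=
        mul_le_mul (hb y) (de_line hh hσ y) (norm_nonneg _) (by positivity)
    _ = C * M * ((1 + |y|) * Real.exp (-|y|)) := by ring
    _ ≤ C * M * (18 * (1 + |y| ^ 2)⁻¹) := mul_le_mul_of_nonneg_left (lin_exp (abs_nonneg y)) (by positivity)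
    _ = _ := by rw [sq_abs]; ring

lemma de_int {h : ℂ → ℂ} {M : ℝ} (hh : De h M) {σ : ℝ} (hσ : |σ| ≤ 1) :
    Integrable (fun y : ℝ => h ⟨σ, y⟩) := by
  have := de_mul_int (φ := fun _ => 1) continuous_const (C := 1) (fun y => by
    simp) hh hσ
  simpa using this

lemma de_summable {h : ℂ → ℂ} {M : ℝ} (hM : 0 ≤ M) (hh : De h M) :
    Summable (fun ρ : Zt => ‖(mu ρ : ℂ) * h ((ρ : ℂ) - 1 / 2)‖) := by
  refine Summable.of_nonneg_of_le (fun _ => norm_nonneg _) (fun ρ => ?_)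
    ((zsummable 0).mul_left (M * 18))
  have h1 := hh.2 ((ρ : ℂ) - 1 / 2) (by
    have := ρ.2
    have e : ((ρ : ℂ) - 1 / 2).re = (ρ : ℂ).re - 1 / 2 := by simp
    rw [e, abs_le]
    constructor <;> linarith [this.2.1, this.2.2])
  have e2 : ((ρ : ℂ) - 1 / 2).im = (ρ : ℂ).im := by simp
  rw [e2] at h1
  rw [norm_mul, Complex.norm_natCast, sub_zero]
  have h4 := lin_exp (abs_nonneg (ρ : ℂ).im)
  rw [sq_abs] at h4
  have h5 : Real.exp (-|(ρ : ℂ).im|) ≤ 18 * (1 + (ρ : ℂ).im ^ 2)⁻¹ := by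
    refine le_trans ?_ h4
    have := Real.exp_pos (-|(ρ : ℂ).im|)
    nlinarith [abs_nonneg (ρ : ℂ).im]
  have h3 : ‖h ((ρ : ℂ) - 1 / 2)‖ ≤ M * (18 * (1 + (ρ : ℂ).im ^ 2)⁻¹) :=
    h1.trans (mul_le_mul_of_nonneg_left h5 hM)
  calc (mu ρ : ℝ) * ‖h ((ρ : ℂ) - 1 / 2)‖ ≤ (mu ρ : ℝ) * (M * (18 * (1 + (ρ : ℂ).im ^ 2)⁻¹)) :=
        mul_le_mul_of_nonneg_left h3 (Nat.cast_nonneg _)
    _ = _ := by rw [one_div]; ring

lemma sq_exp_tendsto2 {U : ℕ → ℝ} (hU : Tendsto U atTop atTop) :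
    Tendsto (fun n => (1 + U n ^ 2) * Real.exp (-U n)) atTop (𝓝 0) := by
  have h1 : Tendsto (fun n => 18 * (1 + U n)⁻¹) atTop (𝓝 0) := by
    have h2 : Tendsto (fun n => 1 + U n) atTop atTop := tendsto_atTop_add_const_left _ _ hU
    have := h2.inv_tendsto_atTop.const_mul 18
    simpa using this
  refine squeeze_zero' ?_ ?_ h1
  · exact Eventually.of_forall fun n => by positivity
  · filter_upwards [hU.eventually_ge_atTop 0] with n hn
    have h3 := cube_exp hn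
    rw [← div_eq_mul_inv, le_div_iff₀ (by positivity)]
    refine le_trans ?_ h3
    have h4 := Real.exp_pos (-U n)
    have : (1 + U n ^ 2) * (1 + U n) ≤ (1 + U n) ^ 3 := by nlinarith
    nlinarith

lemma horiz_zero2 {φ : ℂ → ℂ} {h : ℂ → ℂ} {M C : ℝ} (hM : 0 ≤ M) (hC : 0 ≤ C) (hh : De h M)
    {a b : ℝ} (ha : -1 ≤ a) (hb : b ≤ 1) (hab : a ≤ b) {U V : ℕ → ℝ} (hU : Tendsto U atTop atTop)
    (hV : ∀ n, |V n| = |U n|)
    (hφ : ∀ n, ∀ x : ℝ, |x| ≤ 1 → ‖φ ⟨x, V n⟩‖ ≤ C * (1 + U n ^ 2)) :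
    Tendsto (fun n => ∫ x in a..b, φ ⟨x, V n⟩ * h ⟨x, V n⟩) atTop (𝓝 0) := by
  have h1 := (sq_exp_tendsto2 hU).const_mul (C * M * |b - a|)
  rw [mul_zero] at h1
  refine squeeze_zero_norm' ?_ h1
  filter_upwards [hU.eventually_ge_atTop 0] with n hn
  have h2 : ‖∫ x in a..b, φ ⟨x, V n⟩ * h ⟨x, V n⟩‖ ≤ (C * (1 + U n ^ 2) * (M * Real.exp (-U n))) * |b - a| := by
    apply intervalIntegral.norm_integral_le_of_norm_le_const
    intro x hx
    rw [uIoc_of_le hab] at hx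
    have hx1 : |x| ≤ 1 := by
      rw [abs_le]; constructor <;> linarith [hx.1, hx.2]
    rw [norm_mul]
    have h3 := de_line hh hx1 (V n)
    rw [hV n, abs_of_nonneg hn] at h3
    exact mul_le_mul (hφ n x hx1) h3 (norm_nonneg _) (by positivity)
  refine h2.trans (le_of_eq ?_)
  ring

/-- the sum over the zeros -/
lemma zeros_line2 {h : ℂ → ℂ} {M : ℝ} (hM : 0 ≤ M) (hh : De h M) :
    2 * Real.pi * ∑' ρ : Zt, (mu ρ : ℂ) * h ((ρ : ℂ) - 1 / 2) = ∫ y : ℝ, ZZ ⟨1, y⟩ * ev h ⟨1, y⟩ := by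
  obtain ⟨C, hC, hgood⟩ := good_ZZ
  choose U hUa hUb hUc using fun n : ℕ => hgood ((n : ℝ) + 3) (by
    have : (0 : ℝ) ≤ n := Nat.cast_nonneg n
    linarith)
  have hT : Tendsto (fun n : ℕ => (n : ℝ) + 3) atTop atTop :=
    tendsto_atTop_add_const_right _ _ tendsto_natCast_atTop_atTop
  have hU : Tendsto U atTop atTop := tendsto_atTop_mono hUa hT
  have hU' : Tendsto (fun n => -U n) atTop atBot := tendsto_neg_atTop_atBot.comp hU
  have hU3 : ∀ n, 3 ≤ U n := fun n => by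
    have : (0 : ℝ) ≤ n := Nat.cast_nonneg n
    linarith [hUa n]
  have hzero : ∀ n, ∀ s ∈ Set.Icc (-1 : ℝ) 1 ×ℂ Set.Icc (-U n) (U n), XX s = 0 →
      s ∈ Set.Ioo (-1 : ℝ) 1 ×ℂ Set.Ioo (-U n) (U n) := by
    intro n s hs h0
    obtain ⟨h1, h2⟩ := hs
    rw [mem_preimage] at h1 h2
    have h3 : IsZ (s + 1 / 2) := by
      rw [isZ_iff]
      have : s + 1 / 2 - 1 / 2 = s := by ring
      rw [this]; exact h0
    have hre : (s + 1 / 2 : ℂ).re = s.re + 1 / 2 := by simp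
    obtain ⟨_, h4, h5⟩ := h3
    rw [hre] at h4 h5
    have hs' : s = ⟨s.re, s.im⟩ := rfl
    have hx : |s.re| ≤ 1 := by rw [abs_le]; constructor <;> linarith
    refine ⟨⟨by linarith, by linarith⟩, ⟨?_, ?_⟩⟩
    · refine lt_of_le_of_ne h2.1 fun he => ?_
      apply (hUc n s.re hx).2.1
      rw [he]; exact h0
    · refine lt_of_le_of_ne h2.2 fun he => ?_
      apply (hUc n s.re hx).1
      rw [← he]; exact h0
  have hres := fun n => rect_residue2 XX h (-1) 1 (-U n) (U n) (by norm_num) (by linarith [hU3 n])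
    (fun s _ => XX_an s) (de_on hh (by norm_num) (by norm_num)) (hzero n)
  have key : ∀ n, (∫ x in (-1 : ℝ)..1, ZZ ⟨x, -U n⟩ * h ⟨x, -U n⟩) - (∫ x in (-1 : ℝ)..1, ZZ ⟨x, U n⟩ * h ⟨x, U n⟩) +
      I * (∫ y in (-U n)..U n, ZZ ⟨1, y⟩ * ev h ⟨1, y⟩) =
      2 * Real.pi * I * ∑' ρ : Zt, if |(ρ : ℂ).im| < U n then (mu ρ : ℂ) * h ((ρ : ℂ) - 1 / 2) else 0 := by
    intro n
    rw [← finsum_XX h (hres n).1, ← (hres n).2]
    have e1 : (∫ y in (-U n)..U n, deriv XX (⟨-1, y⟩ : ℂ) / XX ⟨-1, y⟩ * h ⟨-1, y⟩) =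
        -∫ y in (-U n)..U n, ZZ ⟨1, y⟩ * h (-⟨1, y⟩) := by
      have e2 := intervalIntegral.integral_comp_neg (a := -U n) (b := U n)
        (fun y : ℝ => deriv XX (⟨-1, y⟩ : ℂ) / XX ⟨-1, y⟩ * h ⟨-1, y⟩)
      rw [neg_neg] at e2
      rw [← e2, ← intervalIntegral.integral_neg]
      refine intervalIntegral.integral_congr fun y _ => ?_
      have e3 : (⟨-1, -y⟩ : ℂ) = -⟨1, y⟩ := by apply Complex.ext <;> simp
      show ZZ ⟨-1, -y⟩ * h ⟨-1, -y⟩ = -(ZZ ⟨1, y⟩ * h (-⟨1, y⟩))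
      rw [e3, ZZ_neg]
      ring
    have hZc : ContinuousOn (fun y : ℝ => ZZ ⟨1, y⟩) (uIcc (-U n) (U n)) := by
      have : (fun y : ℝ => ZZ ⟨1, y⟩) = fun y : ℝ => YL ⟨1, y⟩ - H370.DD Lam ⟨3 / 2, y⟩ := by
        funext y; exact ZZ_one y
      rw [this]
      exact ((YL_line (x := 1) (by norm_num) Rg_one).1.sub DD_cont).continuousOn
    have hc1 : Continuous (fun y : ℝ => h ⟨1, y⟩) := de_cont hh (by norm_num)
    have hc2 : Continuous (fun y : ℝ => h (-⟨1, y⟩)) := by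
      have h9 := (de_cont (σ := -1) hh (by norm_num)).comp continuous_neg
      refine h9.congr fun y => ?_
      have h8 : (⟨-1, -y⟩ : ℂ) = -⟨1, y⟩ := by apply Complex.ext <;> simp
      simp only [Function.comp, h8]
    have e4 : (∫ y in (-U n)..U n, ZZ ⟨1, y⟩ * ev h ⟨1, y⟩) =
        (∫ y in (-U n)..U n, ZZ ⟨1, y⟩ * h ⟨1, y⟩) + ∫ y in (-U n)..U n, ZZ ⟨1, y⟩ * h (-⟨1, y⟩) := by
      have i1 : IntervalIntegrable (fun y : ℝ => ZZ ⟨1, y⟩ * h ⟨1, y⟩) volume (-U n) (U n) :=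
        (hZc.mul hc1.continuousOn).intervalIntegrable
      have i2 : IntervalIntegrable (fun y : ℝ => ZZ ⟨1, y⟩ * h (-⟨1, y⟩)) volume (-U n) (U n) :=
        (hZc.mul hc2.continuousOn).intervalIntegrable
      rw [← intervalIntegral.integral_add i1 i2]
      refine intervalIntegral.integral_congr fun y _ => ?_
      show ZZ ⟨1, y⟩ * (h ⟨1, y⟩ + h (-⟨1, y⟩)) = _
      ring
    rw [e1, e4]
    unfold ZZ
    ring
  have h1 := horiz_zero2 (φ := ZZ) hM hC.le hh (a := -1) (b := 1) le_rfl le_rfl (by norm_num)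
    hU (V := fun n : ℕ => -U n) (fun n => abs_neg _) (fun n x hx => (hUc n x hx).2.2.2)
  have h2 := horiz_zero2 (φ := ZZ) hM hC.le hh (a := -1) (b := 1) le_rfl le_rfl (by norm_num)
    hU (V := fun n : ℕ => U n) (fun n => rfl) (fun n x hx => (hUc n x hx).2.2.1)
  obtain ⟨hYc, C1, hC1, hYb⟩ := YL_line (x := 1) (by norm_num) Rg_one
  have hint : Integrable (fun y : ℝ => ZZ ⟨1, y⟩ * ev h ⟨1, y⟩) := by
    have : (fun y : ℝ => ZZ ⟨1, y⟩) = fun y : ℝ => YL ⟨1, y⟩ - H370.DD Lam ⟨3 / 2, y⟩ := by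
      funext y; exact ZZ_one y
    simp only [congrFun this]
    refine de_mul_int (hYc.sub DD_cont) (C := C1 + H370.D0) (fun y => ?_) (ev_de hh) (by norm_num)
    refine (norm_sub_le _ _).trans ((add_le_add (hYb y) (DD_bd y)).trans (le_of_eq ?_))
    ring
  have h3 := intervalIntegral_tendsto_integral hint hU' hU
  have h4 : Tendsto (fun n => ∑' ρ : Zt, if |(ρ : ℂ).im| < U n then (mu ρ : ℂ) * h ((ρ : ℂ) - 1 / 2) else 0) atTop
      (𝓝 (∑' ρ : Zt, (mu ρ : ℂ) * h ((ρ : ℂ) - 1 / 2))) := by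
    refine tendsto_tsum_of_dominated_convergence (de_summable hM hh) ?_ ?_
    · intro ρ
      refine tendsto_const_nhds.congr' ?_
      filter_upwards [hU.eventually_gt_atTop |(ρ : ℂ).im|] with n hn
      rw [if_pos hn]
    · refine Eventually.of_forall fun n ρ => ?_
      split_ifs
      · exact le_rfl
      · rw [norm_zero]; exact norm_nonneg _
  have h5 := (h1.sub h2).add (h3.const_mul I)
  have h6 := h4.const_mul (2 * Real.pi * I)
  have h7 := tendsto_nhds_unique (h5.congr key) h6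
  rw [sub_zero, zero_add] at h7
  apply mul_left_cancel₀ I_ne_zero
  rw [h7]
  ring

/-- moving the line of integration in the archimedean part -/
lemma arch_shift2 {H : ℂ → ℂ} {M : ℝ} (hM : 0 ≤ M) (hh : De H M) :
    ∫ y : ℝ, YL ⟨1, y⟩ * H ⟨1, y⟩ = 2 * Real.pi * H (1 / 2) + ∫ y : ℝ, YL ⟨0, y⟩ * H ⟨0, y⟩ := by
  set U : ℕ → ℝ := fun n => (n : ℝ) + 1 with hUd
  have hU1 : ∀ n, 1 ≤ U n := fun n => by
    have : (0 : ℝ) ≤ n := Nat.cast_nonneg n
    simp only [hUd]; linarith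
  have hU : Tendsto U atTop atTop := tendsto_atTop_add_const_right _ _ tendsto_natCast_atTop_atTop
  have hU' : Tendsto (fun n => -U n) atTop atBot := tendsto_neg_atTop_atBot.comp hU
  obtain ⟨C, hC, hYL⟩ := YL_bd
  have hz : ∀ n, ∀ s ∈ Set.Icc (0 : ℝ) 1 ×ℂ Set.Icc (-U n) (U n), YY s = 0 → s = 1 / 2 := by
    intro n s hs h0
    have h1 : -1 / 2 < s.re := by
      have := hs.1
      rw [mem_preimage] at this
      linarith [this.1]
    unfold YY at h0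
    rcases mul_eq_zero.1 h0 with h2 | h2
    · by_contra hne
      refine four_sq_ne hne (fun h3 => ?_) h2
      rw [h3] at h1
      norm_num at h1
    · exact absurd h2 (gr_ne (Or.inl h1))
  have hmem : ∀ n, (1 / 2 : ℂ) ∈ Set.Ioo (0 : ℝ) 1 ×ℂ Set.Ioo (-U n) (U n) := by
    intro n
    refine ⟨?_, ?_⟩
    · rw [mem_preimage]; norm_num
    · rw [mem_preimage]
      have : (1 / 2 : ℂ).im = 0 := by norm_num
      rw [this]
      exact ⟨by linarith [hU1 n], by linarith [hU1 n]⟩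
  have hYY0 : YY (1 / 2) = 0 := by
    unfold YY; norm_num
  have hres := fun n => (rect_residue2 YY H 0 1 (-U n) (U n) (by norm_num) (by linarith [hU1 n])
    (fun s hs => YY_an (Or.inl (by
      have := hs.1
      rw [mem_preimage] at this
      linarith [this.1]))) (de_on hh (by norm_num) (by norm_num)) (fun s hs h0 => by rw [hz n s hs h0]; exact hmem n)).2
  have hset : ∀ n, {s : ℂ | s ∈ Set.Ioo (0 : ℝ) 1 ×ℂ Set.Ioo (-U n) (U n) ∧ YY s = 0} = {1 / 2} := by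
    intro n
    ext s
    constructor
    · rintro ⟨h1, h2⟩
      exact hz n s ⟨Ioo_subset_Icc_self h1.1, Ioo_subset_Icc_self h1.2⟩ h2
    · intro h
      rw [mem_singleton_iff] at h
      rw [h]
      exact ⟨hmem n, hYY0⟩
  have hmult : H370.mult YY (1 / 2) = 1 := by
    unfold H370.mult analyticOrderNatAt
    rw [half_an_order]
    rfl
  have key : ∀ n, (∫ x in (0 : ℝ)..1, YL ⟨x, -U n⟩ * H ⟨x, -U n⟩) - (∫ x in (0 : ℝ)..1, YL ⟨x, U n⟩ * H ⟨x, U n⟩) +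
      I * (∫ y in (-U n)..U n, YL ⟨1, y⟩ * H ⟨1, y⟩) - I * (∫ y in (-U n)..U n, YL ⟨0, y⟩ * H ⟨0, y⟩) =
      2 * Real.pi * I * H (1 / 2) := by
    intro n
    have h := hres n
    rw [hset n, finsum_mem_singleton, hmult, Nat.cast_one, one_mul] at h
    rw [← h]
    have e1 : ∀ x : ℝ, YL ⟨x, -U n⟩ = deriv YY ⟨x, -U n⟩ / YY ⟨x, -U n⟩ := fun x =>
      (YL_eq (Rg_im (w := ⟨x, -U n⟩) (by show -U n ≠ 0; linarith [hU1 n]))).symm
    have e2 : ∀ x : ℝ, YL ⟨x, U n⟩ = deriv YY ⟨x, U n⟩ / YY ⟨x, U n⟩ := fun x =>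
      (YL_eq (Rg_im (w := ⟨x, U n⟩) (by show U n ≠ 0; linarith [hU1 n]))).symm
    have e3 : ∀ y : ℝ, YL ⟨1, y⟩ = deriv YY ⟨1, y⟩ / YY ⟨1, y⟩ := fun y => (YL_eq (Rg_one y)).symm
    have e4 : ∀ y : ℝ, YL ⟨0, y⟩ = deriv YY ⟨0, y⟩ / YY ⟨0, y⟩ := fun y => (YL_eq (Rg_zero y)).symm
    simp only [e1, e2, e3, e4]
  have hb : ∀ (n : ℕ) (V : ℝ), |V| = U n → ∀ x : ℝ, |x| ≤ 1 → ‖YL ⟨x, V⟩‖ ≤ (2 * C) * (1 + U n ^ 2) := by
    intro n V hV x hx
    have h1 := hYL ⟨x, V⟩ hx (by show 1 ≤ |V|; rw [hV]; exact hU1 n)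
    have h2 : |(⟨x, V⟩ : ℂ).im| = U n := hV
    rw [h2] at h1
    refine h1.trans ?_
    have := hU1 n
    have h3 : 1 + U n ≤ 2 * (1 + U n ^ 2) := by nlinarith
    nlinarith [mul_le_mul_of_nonneg_left h3 hC.le]
  have hUabs : ∀ n, |U n| = U n := fun n => abs_of_pos (by linarith [hU1 n])
  have h1 := horiz_zero2 (φ := YL) (V := fun n => -U n) hM (by positivity : 0 ≤ 2 * C) hh (a := 0) (b := 1)
    (by norm_num) le_rfl zero_le_one hU (fun n => abs_neg _) (fun n => hb n _ (by rw [abs_neg, hUabs n]))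
  have h2 := horiz_zero2 (φ := YL) (V := fun n => U n) hM (by positivity : 0 ≤ 2 * C) hh (a := 0) (b := 1)
    (by norm_num) le_rfl zero_le_one hU (fun n => rfl) (fun n => hb n _ (hUabs n))
  obtain ⟨c1, C1, _, b1⟩ := YL_line (x := 1) (by norm_num) Rg_one
  obtain ⟨c0, C0, _, b0⟩ := YL_line (x := 0) (by norm_num) Rg_zero
  have h3 := intervalIntegral_tendsto_integral (de_mul_int c1 b1 hh (σ := 1) (by norm_num)) hU' hU
  have h4 := intervalIntegral_tendsto_integral (de_mul_int c0 b0 hh (σ := 0) (by norm_num)) hU' hU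
  have h5 := ((h1.sub h2).add (h3.const_mul I)).sub (h4.const_mul I)
  have h6 := tendsto_nhds_unique (h5.congr key) tendsto_const_nhds
  rw [sub_zero, zero_add] at h6
  apply mul_left_cancel₀ I_ne_zero
  linear_combination h6

/-- the prime sum -/
lemma prime_line2 {H : ℂ → ℂ} {M : ℝ} (hh : De H M) :
    HasSum (fun n : ℕ => ∫ v : ℝ, Lam n * (n : ℂ) ^ (-(⟨3 / 2, v⟩ : ℂ)) * H ⟨1, v⟩)
      (∫ y : ℝ, H370.DD Lam ⟨3 / 2, y⟩ * H ⟨1, y⟩) := by
  set f : ℕ → ℝ → ℂ := fun n v => Lam n * (n : ℂ) ^ (-(⟨3 / 2, v⟩ : ℂ)) * H ⟨1, v⟩ with hf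
  have hcl := de_cont (σ := 1) hh (by norm_num)
  have hnb : ∀ n v, ‖f n v‖ ≤ (ArithmeticFunction.vonMangoldt n * (n : ℝ) ^ (-(3 / 2 : ℝ))) * ‖H ⟨1, v⟩‖ := by
    intro n v
    simp only [hf]
    rw [norm_mul]
    exact mul_le_mul_of_nonneg_right (H370.norm_npow n v (Lam n) (Lam_norm n)) (norm_nonneg _)
  have hcont : ∀ n, Continuous (f n) := by
    intro n
    rcases Nat.eq_zero_or_pos n with h | h
    · subst h
      simp only [hf, Lam_zero, zero_mul]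
      exact continuous_const
    · simp only [hf]
      have : (fun v : ℝ => Lam n * (n : ℂ) ^ (-(⟨3 / 2, v⟩ : ℂ))) =
          fun v : ℝ => Lam n * cexp (-((Real.log n : ℝ) : ℂ) * ((3 / 2 : ℝ) + v * I)) := by
        funext v
        rw [H370.term_eq n h, H370.mk_eq]
      refine Continuous.mul ?_ hcl
      rw [this]
      fun_prop
  have hG : Integrable (fun v : ℝ => ‖H ⟨1, v⟩‖) := (de_int hh (σ := 1) (by norm_num)).norm
  have hint : ∀ n, Integrable (f n) := fun n =>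
    (hG.const_mul (ArithmeticFunction.vonMangoldt n * (n : ℝ) ^ (-(3 / 2 : ℝ)))).mono'
      (hcont n).aestronglyMeasurable (Eventually.of_forall (hnb n))
  have hsum : Summable fun n => ∫ v, ‖f n v‖ := by
    refine Summable.of_nonneg_of_le (fun n => integral_nonneg fun v => norm_nonneg _) (fun n => ?_)
      (H370.lam_summable.mul_right (∫ v : ℝ, ‖H ⟨1, v⟩‖))
    rw [← integral_const_mul]
    exact integral_mono (hint n).norm (hG.const_mul _) (fun v => hnb n v)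
  have key := hasSum_integral_of_summable_integral_norm hint hsum
  have e1 : (fun v : ℝ => H370.DD Lam ⟨3 / 2, v⟩ * H ⟨1, v⟩) = fun v => ∑' n, f n v := by
    funext v
    simp only [hf, H370.DD]
    rw [tsum_mul_right]
  rw [e1]
  exact key

/-- the four pieces -/
theorem four {h : ℂ → ℂ} {M : ℝ} (hM : 0 ≤ M) (hh : De h M) :
    2 * Real.pi * ∑' ρ : Zt, (mu ρ : ℂ) * h ((ρ : ℂ) - 1 / 2) =
      2 * Real.pi * h (1 / 2) + (∫ y : ℝ, YL ⟨0, y⟩ * h ⟨0, y⟩) + (∫ y : ℝ, YL ⟨1, y⟩ * h (-⟨1, y⟩)) -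
        (∫ y : ℝ, H370.DD Lam ⟨3 / 2, y⟩ * h ⟨1, y⟩) - (∫ y : ℝ, H370.DD Lam ⟨3 / 2, y⟩ * h (-⟨1, y⟩)) := by
  have hneg : De (fun w => h (-w)) M := by
    constructor
    · intro w hw
      exact (hh.1 (-w) (by rw [Complex.neg_re, abs_neg]; exact hw)).comp w differentiableAt_id.neg
    · intro w hw
      have h2 := hh.2 (-w) (by rw [Complex.neg_re, abs_neg]; exact hw)
      rwa [Complex.neg_im, abs_neg] at h2
  obtain ⟨c1, C1, _, b1⟩ := YL_line (x := 1) (by norm_num) Rg_one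
  have i1 : Integrable (fun y : ℝ => YL ⟨1, y⟩ * h ⟨1, y⟩) := de_mul_int c1 b1 hh (by norm_num)
  have i2 : Integrable (fun y : ℝ => YL ⟨1, y⟩ * h (-⟨1, y⟩)) := de_mul_int c1 b1 hneg (by norm_num)
  have i3 : Integrable (fun y : ℝ => H370.DD Lam ⟨3 / 2, y⟩ * h ⟨1, y⟩) :=
    de_mul_int DD_cont DD_bd hh (by norm_num)
  have i4 : Integrable (fun y : ℝ => H370.DD Lam ⟨3 / 2, y⟩ * h (-⟨1, y⟩)) :=
    de_mul_int DD_cont DD_bd hneg (by norm_num)
  have e1 := integral_add i1 i2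
  have e2 := integral_sub (i1.add i2) i3
  have e3 := integral_sub ((i1.add i2).sub i3) i4
  simp only [Pi.add_apply] at e2
  simp only [Pi.add_apply, Pi.sub_apply] at e3
  rw [zeros_line2 hM hh, ← arch_shift2 hM hh, ← e1, ← e2, ← e3]
  refine integral_congr_ae (Eventually.of_forall fun y => ?_)
  show ZZ ⟨1, y⟩ * ev h ⟨1, y⟩ = _
  simp only []
  rw [ZZ_one]
  unfold ev
  ring

end Pool.Agent.Y746.PT
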