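import Pool.Agent.Y746.PT.Tur

/-! # A lower bound for power sums with coefficients in the right half-plane -/

set_option autoImplicit false

open Complex Filter Topology Set MeasureTheory

namespace Pool.Agent.Y746.PT

lemma gap {ι : Type} (s : Finset ι) (x : ι → ℝ) {A B : ℝ} (hAB : A < B) :
    ∃ ρ : ℝ, A ≤ ρ ∧ ρ ≤ B ∧ ∀ j ∈ s, (B - A) / (2 * (s.card + 1)) ≤ |x j - ρ| := by
  classical
  set n := s.card with hn
  set δ : ℝ := (B - A) / (2 * (n + 1)) with hδ
  have hδ0 : 0 < δ := by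
    have : 0 < B - A := by linarith
    positivity
  have hδn : 2 * (n + 1) * δ = B - A := by
    rw [hδ]; field_simp
  by_contra hcon
  push Not at hcon
  have hρ : ∀ i : ℕ, i ∈ Finset.range (n + 1) → ∃ j ∈ s, |x j - (A + (2 * i + 1) * δ)| < δ := by
    intro i hi
    have hi' : (i : ℝ) ≤ n := by
      have := Finset.mem_range.1 hi
      exact_mod_cast (by omega : i ≤ n)
    have hi0 : (0 : ℝ) ≤ i := Nat.cast_nonneg i
    refine hcon _ ?_ ?_
    · have : 0 ≤ (2 * (i : ℝ) + 1) * δ := by positivity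
      linarith
    · have : (2 * (i : ℝ) + 1) * δ ≤ 2 * (n + 1) * δ := by
        refine mul_le_mul_of_nonneg_right ?_ hδ0.le
        linarith
      linarith
  obtain ⟨j', _, _⟩ := hρ 0 (by simp)
  haveI : Nonempty ι := ⟨j'⟩
  choose! f hf1 hf2 using hρ
  obtain ⟨i, hi, i', hi', hne, heq⟩ := Finset.exists_ne_map_eq_of_card_lt_of_maps_to
    (s := Finset.range (n + 1)) (t := s) (by rw [Finset.card_range]; omega) (f := f) (fun i hi => hf1 i hi)
  have h1 := hf2 i hi
  have h2 := hf2 i' hi'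
  rw [heq] at h1
  have h3 : |(2 * ((i : ℝ) - i')) * δ| < 2 * δ := by
    have e : (2 * ((i : ℝ) - i')) * δ = (x (f i') - (A + (2 * i' + 1) * δ)) - (x (f i') - (A + (2 * i + 1) * δ)) := by ring
    rw [e]
    refine lt_of_le_of_lt (abs_sub _ _) ?_
    linarith
  rw [abs_mul, abs_mul, abs_of_pos hδ0, abs_two] at h3
  have h4 : (1 : ℝ) ≤ |(i : ℝ) - i'| := by
    have h5 : (1 : ℤ) ≤ |(i : ℤ) - i'| := Int.one_le_abs (sub_ne_zero.2 (by exact_mod_cast hne))
    have h6 : ((1 : ℤ) : ℝ) ≤ ((|(i : ℤ) - i'| : ℤ) : ℝ) := by exact_mod_cast h5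
    push_cast at h6
    exact h6
  nlinarith

lemma factor_le {a b δ : ℝ} (hδ0 : 0 < δ) (hδ1 : δ ≤ 1) (h : δ ≤ |a - b|) :
    (Real.exp b + Real.exp a) / |Real.exp a - Real.exp b| ≤ 4 / δ := by
  wlog hab : b ≤ a generalizing a b with H
  · have := H (a := b) (b := a) (by rw [abs_sub_comm]; exact h) (by linarith)
    rw [add_comm, abs_sub_comm]
    exact this
  have h1 : δ ≤ a - b := by rwa [abs_of_nonneg (by linarith)] at h
  have h2 : Real.exp b ≤ Real.exp a * Real.exp (-δ) := by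
    rw [← Real.exp_add]
    exact Real.exp_le_exp.2 (by linarith)
  have h3 : Real.exp (-δ) ≤ 1 - δ / 2 := by
    have h4 := Real.quadratic_le_exp_of_nonneg hδ0.le
    rw [Real.exp_neg, inv_le_comm₀ (Real.exp_pos _) (by linarith)]
    rw [inv_eq_one_div, div_le_iff₀ (by linarith)]
    nlinarith
  have hea := Real.exp_pos a
  have heb := Real.exp_pos b
  have h5 : Real.exp a * (δ / 2) ≤ Real.exp a - Real.exp b := by nlinarith
  have h6 : 0 < Real.exp a - Real.exp b := lt_of_lt_of_le (by positivity) h5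
  rw [abs_of_pos h6, div_le_div_iff₀ h6 hδ0]
  have h7 : Real.exp b ≤ Real.exp a := Real.exp_le_exp.2 hab
  nlinarith

/-- the lower bound -/
theorem sep {ι : Type} (s : Finset ι) (z b : ι → ℂ) {A B : ℝ} (hA : 0 ≤ A) (hAB : A < B) (hB1 : B - A ≤ 1)
    (hz : ∀ j ∈ s, z j ≠ 0) {j0 : ι} (hj0 : j0 ∈ s) (hj1 : B ≤ Real.log ‖z j0‖) (hb : ∀ j ∈ s, 0 ≤ (b j).re)
    {N : ℕ} (hN : 1 ≤ N) {D : ℝ} (hD : ∀ k : ℕ, N ≤ k → k < N + s.card → ‖∑ j ∈ s, b j * z j ^ k‖ ≤ D) :
    (b j0).re ≤ s.card * (8 * (s.card + 1) / (B - A)) ^ s.card * Real.exp (-(A * N)) * D := by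
  classical
  obtain ⟨ρ, hρ1, hρ2, hρ3⟩ := gap s (fun j => Real.log ‖z j‖) hAB
  set n := s.card with hn
  set δ : ℝ := (B - A) / (2 * (n + 1)) with hδ
  have hBA : 0 < B - A := by linarith
  have hδ0 : 0 < δ := by positivity
  have hδ1 : δ ≤ 1 := by
    rw [hδ, div_le_one (by positivity)]
    have : (0 : ℝ) ≤ n := Nat.cast_nonneg n
    linarith
  have hδ4 : 4 / δ = 8 * (n + 1) / (B - A) := by
    rw [hδ]; field_simp; ring
  set r : ℝ := Real.exp ρ with hr
  have hr0 : 0 < r := Real.exp_pos _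
  have hzp : ∀ j ∈ s, 0 < ‖z j‖ := fun j hj => norm_pos_iff.2 (hz j hj)
  have hne : ∀ j ∈ s, ‖z j‖ ≠ r := by
    intro j hj h
    have h1 := hρ3 j hj
    rw [h, hr, Real.log_exp, sub_self, abs_zero] at h1
    linarith
  obtain ⟨c, hc1, hc2⟩ := interp s z hr0 hz hne (N - 1)
  have hidx : ∀ k, N - 1 + 1 + k = N + k := fun k => by omega
  simp only [hidx] at hc1 hc2
  have hcb : ∀ k, ‖c k‖ ≤ Real.exp (-(A * N)) * (8 * (n + 1) / (B - A)) ^ n := by
    intro k
    refine (hc1 k).trans ?_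
    have h1 : ∏ j ∈ s, ((r + ‖z j‖) / |‖z j‖ - r|) ≤ (8 * (n + 1) / (B - A)) ^ n := by
      rw [hn, ← Finset.prod_const, ← hn]
      refine Finset.prod_le_prod (fun j _ => by positivity) fun j hj => ?_
      rw [← hδ4]
      have h2 := factor_le (a := Real.log ‖z j‖) (b := ρ) hδ0 hδ1 (hρ3 j hj)
      rwa [Real.exp_log (hzp j hj), ← hr] at h2
    have h2 : (r ^ (N + k))⁻¹ ≤ Real.exp (-(A * N)) := by
      rw [hr, ← Real.exp_nat_mul, ← Real.exp_neg]
      refine Real.exp_le_exp.2 ?_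
      push_cast
      have hN0 : (0 : ℝ) ≤ N := Nat.cast_nonneg N
      have hk0 : (0 : ℝ) ≤ k := Nat.cast_nonneg k
      have h3 : A * N ≤ ρ * N := mul_le_mul_of_nonneg_right hρ1 hN0
      have h4 : 0 ≤ ρ * k := mul_nonneg (hA.trans hρ1) hk0
      nlinarith
    exact mul_le_mul h2 h1 (Finset.prod_nonneg fun j _ => by positivity) (Real.exp_pos _).le
  -- the sum of the coefficients of the large exponents
  set O : ℂ := ∑ j ∈ s, b j * (if r < ‖z j‖ then 1 else 0) with hO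
  have hOeq : O = ∑ k ∈ Finset.range n, c k * ∑ j ∈ s, b j * z j ^ (N + k) := by
    rw [hO]
    have : ∀ j ∈ s, b j * (if r < ‖z j‖ then (1 : ℂ) else 0) = ∑ k ∈ Finset.range n, c k * (b j * z j ^ (N + k)) := by
      intro j hj
      rw [← hc2 j hj, Finset.mul_sum]
      exact Finset.sum_congr rfl fun k _ => by ring
    rw [Finset.sum_congr rfl this, Finset.sum_comm]
    exact Finset.sum_congr rfl fun k _ => by rw [Finset.mul_sum]
  have hD0 : 0 ≤ D := by
    have hpos : 0 < s.card := Finset.card_pos.2 ⟨j0, hj0⟩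
    exact (norm_nonneg _).trans (hD N le_rfl (by omega))
  have hOn : ‖O‖ ≤ n * (Real.exp (-(A * N)) * (8 * (n + 1) / (B - A)) ^ n * D) := by
    rw [hOeq]
    have h1 : ∀ k ∈ Finset.range n, ‖c k * ∑ j ∈ s, b j * z j ^ (N + k)‖ ≤
        Real.exp (-(A * N)) * (8 * (n + 1) / (B - A)) ^ n * D := by
      intro k hk
      rw [norm_mul]
      refine mul_le_mul (hcb k) (hD (N + k) (by omega) ?_) (norm_nonneg _) (by positivity)
      have := Finset.mem_range.1 hk
      omega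
    refine (norm_sum_le_of_le _ h1).trans (le_of_eq ?_)
    rw [Finset.sum_const, Finset.card_range, nsmul_eq_mul]
  have hre : (b j0).re ≤ O.re := by
    rw [hO, Complex.re_sum]
    have h1 : ∀ j ∈ s, 0 ≤ (b j * (if r < ‖z j‖ then (1 : ℂ) else 0)).re := by
      intro j hj
      split_ifs
      · rw [mul_one]; exact hb j hj
      · simp
    refine le_trans ?_ (Finset.single_le_sum h1 hj0)
    have h2 : r < ‖z j0‖ := by
      have h3 := hρ3 j0 hj0
      have h4 : ρ < Real.log ‖z j0‖ := by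
        rcases eq_or_lt_of_le (hρ2.trans hj1) with h5 | h5
        · exfalso
          rw [← h5, sub_self, abs_zero] at h3
          linarith
        · exact h5
      rw [hr, ← Real.exp_log (hzp j0 hj0)]
      exact Real.exp_lt_exp.2 h4
    rw [if_pos h2, mul_one]
  calc (b j0).re ≤ O.re := hre
    _ ≤ ‖O‖ := Complex.re_le_norm _
    _ ≤ _ := hOn
    _ = _ := by ring

end Pool.Agent.Y746.PT
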