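import Pool.Agent.Y746.PT.EF
import Pool.Agent.Y746.PT.Sep
import Pool.Agent.Y746.DX.F
import Pool.Agent.W190.C3

/-! # Short blocks of powers of `q` -/

set_option autoImplicit false

open Complex Filter Topology Set MeasureTheory
open scoped ComplexConjugate
open Pool.Agent.H24R2.JP (XX)

namespace Pool.Agent.Y746.PT

open Pool.Agent.Y23 (Zt mu zsummable)

lemma asym {a C4 K c : ℝ} (ha : a < 1) (hC4 : 0 < C4) (hc : 0 < c) :
    ∀ᶠ N : ℕ in atTop, C4 * (N : ℝ) ^ a * (K + Real.log N) ≤ c * N := by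
  have h1 : ∀ᶠ x : ℝ in atTop, C4 * x ^ a * (K + Real.log x) ≤ c * x := by
    have h2 := (isLittleO_log_rpow_atTop (show 0 < 1 - a by linarith)).bound (show 0 < c / (2 * C4) by positivity)
    have h3 := (tendsto_rpow_atTop (show 0 < 1 - a by linarith)).eventually_ge_atTop (K / (c / (2 * C4)))
    filter_upwards [h2, h3, eventually_ge_atTop 1] with x h4 h5 h6
    have hx0 : 0 < x := by linarith
    rw [Real.norm_of_nonneg (Real.log_nonneg h6), Real.norm_of_nonneg (by positivity)] at h4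
    rw [div_le_iff₀ (by positivity)] at h5
    have h7 : K + Real.log x ≤ c / C4 * x ^ (1 - a) := by
      have : c / C4 * x ^ (1 - a) = c / (2 * C4) * x ^ (1 - a) + x ^ (1 - a) * (c / (2 * C4)) := by
        field_simp; ring
      rw [this]; linarith
    calc C4 * x ^ a * (K + Real.log x) ≤ C4 * x ^ a * (c / C4 * x ^ (1 - a)) := by gcongr
      _ = c * (x ^ a * x ^ (1 - a)) := by field_simp
      _ = c * x := by
          rw [← Real.rpow_add hx0]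
          have : a + (1 - a) = 1 := by ring
          rw [this, Real.rpow_one]
  exact tendsto_natCast_atTop_atTop.eventually h1

lemma dec_sum : Summable (fun ρ : Zt => (mu ρ : ℝ) * Real.exp (-|(ρ : ℂ).im|)) := by
  refine Summable.of_nonneg_of_le (fun ρ => by positivity) (fun ρ => ?_) ((zsummable 0).mul_left 18)
  have h4 := lin_exp (abs_nonneg (ρ : ℂ).im)
  rw [sq_abs] at h4
  have h5 : Real.exp (-|(ρ : ℂ).im|) ≤ 18 * (1 + (ρ : ℂ).im ^ 2)⁻¹ := by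
    refine le_trans ?_ h4
    have := Real.exp_pos (-|(ρ : ℂ).im|)
    nlinarith [abs_nonneg (ρ : ℂ).im]
  rw [sub_zero]
  calc (mu ρ : ℝ) * Real.exp (-|(ρ : ℂ).im|) ≤ (mu ρ : ℝ) * (18 * (1 + (ρ : ℂ).im ^ 2)⁻¹) :=
        mul_le_mul_of_nonneg_left h5 (Nat.cast_nonneg _)
    _ = _ := by rw [one_div]; ring

/-- the terms of the sum over the zeros -/
noncomputable def ft (u : ℝ) (ρ : Zt) : ℂ := (mu ρ : ℂ) * (K0 ((ρ : ℂ) - 1 / 2) * cexp (u * ((ρ : ℂ) - 1 / 2)))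

lemma ft_summable (u : ℝ) : Summable (fun ρ : Zt => ‖ft u ρ‖) := by
  obtain ⟨M, hM, hh⟩ := h_de u
  have h : Summable (fun ρ : Zt => ‖(mu (ρ : ℂ) : ℂ) * (K0 ((ρ : ℂ) - 1 / 2) * cexp (u * ((ρ : ℂ) - 1 / 2)))‖) :=
    de_summable (h := fun w => K0 w * cexp (u * w)) hM hh
  exact h

lemma zt_re (ρ : Zt) : |((ρ : ℂ) - 1 / 2).re| < 1 / 2 := by
  have := ρ.2
  have e : ((ρ : ℂ) - 1 / 2).re = (ρ : ℂ).re - 1 / 2 := by simp
  rw [e, abs_lt]
  constructor <;> linarith [this.2.1, this.2.2]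

lemma ft_norm {M : ℝ} (hb : ∀ w : ℂ, |w.re| ≤ 1 → ‖K0 w‖ ≤ M * Real.exp (-(2 * |w.im|))) (u : ℝ) (ρ : Zt) :
    ‖ft u ρ‖ ≤ (mu ρ : ℝ) * (M * Real.exp (-(2 * |(ρ : ℂ).im|)) * Real.exp (u * ((ρ : ℂ).re - 1 / 2))) := by
  unfold ft
  rw [norm_mul, Complex.norm_natCast, norm_mul]
  refine mul_le_mul_of_nonneg_left ?_ (Nat.cast_nonneg _)
  have e : ((ρ : ℂ) - 1 / 2).re = (ρ : ℂ).re - 1 / 2 := by simp
  have e' : ((ρ : ℂ) - 1 / 2).im = (ρ : ℂ).im := by simp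
  have h1 := hb ((ρ : ℂ) - 1 / 2) ((zt_re ρ).le.trans (by norm_num))
  rw [e'] at h1
  rw [Complex.norm_exp, Complex.re_ofReal_mul, e]
  gcongr

/-- upper bound in a zero-free half-plane -/
theorem direct {θ : ℝ} (hθ : 1 / 2 ≤ θ) (hz : ∀ s : ℂ, θ < s.re → riemannZeta s ≠ 0) :
    ∃ C : ℝ, ∀ x : ℝ, 1 ≤ x → |EE x| ≤ C * x ^ (θ - 2) := by
  obtain ⟨M, hM, hb⟩ := K0_bd
  obtain ⟨C1, hC1, hef⟩ := ef
  set G : ℝ := ∑' ρ : Zt, (mu ρ : ℝ) * Real.exp (-|(ρ : ℂ).im|) with hG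
  have hG0 : 0 ≤ G := tsum_nonneg fun ρ => by positivity
  refine ⟨C1 + M * G, fun x hx => ?_⟩
  have hx0 : 0 < x := by linarith
  set u : ℝ := Real.log x with hu
  have hu0 : 0 ≤ u := Real.log_nonneg hx
  have hxu : Real.exp u = x := Real.exp_log hx0
  have h1 := hef u hu0
  rw [hxu] at h1
  have h2 : ‖ZS u‖ ≤ M * G * Real.exp (u * (θ - 1 / 2)) := by
    have e1 : ZS u = ∑' ρ : Zt, ft u ρ := rfl
    rw [e1]
    refine (norm_tsum_le_tsum_norm (ft_summable u)).trans ?_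
    have h3 : ∀ ρ : Zt, ‖ft u ρ‖ ≤ (M * Real.exp (u * (θ - 1 / 2))) * ((mu ρ : ℝ) * Real.exp (-|(ρ : ℂ).im|)) := by
      intro ρ
      refine (ft_norm hb u ρ).trans ?_
      have h4 : (ρ : ℂ).re ≤ θ := by
        by_contra hc
        push Not at hc
        exact hz _ hc ρ.2.1
      have h5 : Real.exp (-(2 * |(ρ : ℂ).im|)) ≤ Real.exp (-|(ρ : ℂ).im|) :=
        Real.exp_le_exp.2 (by linarith [abs_nonneg (ρ : ℂ).im])
      have h6 : Real.exp (u * ((ρ : ℂ).re - 1 / 2)) ≤ Real.exp (u * (θ - 1 / 2)) :=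
        Real.exp_le_exp.2 (mul_le_mul_of_nonneg_left (by linarith) hu0)
      calc (mu ρ : ℝ) * (M * Real.exp (-(2 * |(ρ : ℂ).im|)) * Real.exp (u * ((ρ : ℂ).re - 1 / 2)))
          ≤ (mu ρ : ℝ) * (M * Real.exp (-|(ρ : ℂ).im|) * Real.exp (u * (θ - 1 / 2))) := by gcongr
        _ = _ := by ring
    refine ((ft_summable u).tsum_le_tsum h3 (dec_sum.mul_left _)).trans (le_of_eq ?_)
    rw [tsum_mul_left]; ring
  have h3 : ‖((2 * Real.exp (3 / 2 * u) * EE x : ℝ) : ℂ)‖ ≤ C1 + M * G * Real.exp (u * (θ - 1 / 2)) := by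
    have e : ((2 * Real.exp (3 / 2 * u) * EE x : ℝ) : ℂ) = (ZS u + ((2 * Real.exp (3 / 2 * u) * EE x : ℝ) : ℂ)) - ZS u := by ring
    rw [e]
    exact (norm_sub_le _ _).trans (add_le_add h1 h2)
  rw [Complex.norm_real, Real.norm_eq_abs, abs_mul, abs_of_pos (by positivity)] at h3
  have h4 : 1 ≤ Real.exp (u * (θ - 1 / 2)) := Real.one_le_exp (mul_nonneg hu0 (by linarith))
  have e2 : x ^ (θ - 2) = Real.exp (u * (θ - 1 / 2)) * Real.exp (-(3 / 2 * u)) := by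
    rw [Real.rpow_def_of_pos hx0, ← Real.exp_add, ← hu]; congr 1; ring
  rw [e2]
  have h5 : Real.exp (3 / 2 * u) * Real.exp (-(3 / 2 * u)) = 1 := by
    rw [← Real.exp_add, add_neg_cancel, Real.exp_zero]
  have hp := Real.exp_pos (-(3 / 2 * u))
  calc |EE x| = |EE x| * (Real.exp (3 / 2 * u) * Real.exp (-(3 / 2 * u))) := by rw [h5, mul_one]
    _ ≤ 2 * Real.exp (3 / 2 * u) * |EE x| * Real.exp (-(3 / 2 * u)) := by
        have : 0 ≤ |EE x| * Real.exp (3 / 2 * u) * Real.exp (-(3 / 2 * u)) := by positivity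
        nlinarith
    _ ≤ (C1 + M * G * Real.exp (u * (θ - 1 / 2))) * Real.exp (-(3 / 2 * u)) := by gcongr
    _ ≤ ((C1 + M * G) * Real.exp (u * (θ - 1 / 2))) * Real.exp (-(3 / 2 * u)) := by
        gcongr
        nlinarith
    _ = _ := by ring

/-- the number of distinct zeros -/
lemma count {η a : ℝ} (hη1 : 1 / 2 < η) (hη2 : η < 1) (ha : 4 * η * (1 - η) < a) :
    ∃ C : ℝ, 0 < C ∧ ∀ T : ℝ, 1 ≤ T → ∀ S : Finset Zt, (∀ ρ ∈ S, η ≤ (ρ : ℂ).re ∧ |(ρ : ℂ).im| ≤ T) →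
      (S.card : ℝ) ≤ C * T ^ a := by
  classical
  obtain ⟨C, hC, h⟩ := Pool.Agent.W190.carlson η (a - 4 * η * (1 - η)) hη1 hη2 (by linarith)
  have e : 4 * η * (1 - η) + (a - 4 * η * (1 - η)) = a := by ring
  rw [e] at h
  refine ⟨C, hC, fun T hT S hS => ?_⟩
  have h0 : ∀ ρ : Zt, H353.FF (ρ : ℂ) = 0 := by
    intro ρ
    have hne : (ρ : ℂ) ≠ 1 := by
      intro h1
      have := ρ.2.2.2
      rw [h1] at this
      simp at this
    have h1 : ZU.J_g2b.FF (ρ : ℂ) = 0 := by rw [ZU.J_g2b.FF_ne hne, ρ.2.1, mul_zero]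
    exact h1
  have h1 := h T hT (S.map (Function.Embedding.subtype _)) (by
    intro s hs
    rw [Finset.mem_map] at hs
    obtain ⟨ρ, hρ, rfl⟩ := hs
    exact ⟨h0 ρ, hS ρ hρ⟩)
  rw [Finset.sum_map] at h1
  refine le_trans ?_ h1
  have h2 : (S.card : ℝ) = ∑ _ρ ∈ S, (1 : ℝ) := by simp
  rw [h2]
  refine Finset.sum_le_sum fun ρ _ => ?_
  have := H353.mu_pos (ρ : ℂ) (h0 ρ)
  exact_mod_cast this

lemma fin_zeros (η T : ℝ) : {ρ : Zt | η ≤ (ρ : ℂ).re ∧ |(ρ : ℂ).im| ≤ T}.Finite := by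
  have h1 := DX.finite_zeros DX.cls_XX.d DX.XX_ne (η - 1 / 2) 1 T
  have h2 : Function.Injective (fun ρ : Zt => (ρ : ℂ) - 1 / 2) := by
    intro a b h
    simp only [sub_left_inj] at h
    exact Subtype.ext h
  refine (h1.preimage h2.injOn).subset ?_
  rintro ρ ⟨h3, h4⟩
  have e : ((ρ : ℂ) - 1 / 2).re = (ρ : ℂ).re - 1 / 2 := by simp
  have e' : ((ρ : ℂ) - 1 / 2).im = (ρ : ℂ).im := by simp
  refine ⟨(Pool.Agent.Y23.isZ_iff (ρ : ℂ)).1 ρ.2, ?_, ?_, ?_⟩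
  · rw [e]; linarith
  · rw [e]; linarith [ρ.2.2.2]
  · rw [e']; exact h4

end Pool.Agent.Y746.PT
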