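import Pool.Agent.Y746.PT.Ex

/-! # The kernel `u / (1 + u)^3` -/

set_option autoImplicit false

open Complex Filter Topology Set MeasureTheory
open scoped ComplexConjugate
open Pool.Agent.H24R2.JP (XX)

namespace Pool.Agent.Y746.PT

open Pool.Agent.Y23

/-- the transform of the kernel -/
noncomputable def K0 (w : ℂ) : ℂ := Gamma (3 / 2 + w) * Gamma (3 / 2 - w)

/-- the kernel -/
noncomputable def ph (t : ℝ) : ℂ := ((t / (1 + t) ^ 3 : ℝ) : ℂ)

lemma image_ff : (fun x : ℝ => x / (1 - x)) '' Ioo 0 1 = Ioi (0 : ℝ) := by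
  ext t
  constructor
  · rintro ⟨x, ⟨h0, h1⟩, rfl⟩
    exact div_pos h0 (by linarith)
  · intro ht
    have ht : 0 < t := ht
    refine ⟨t / (1 + t), ⟨by positivity, ?_⟩, ?_⟩
    · rw [div_lt_one (by positivity)]; linarith
    · simp only
      have : (1 + t : ℝ) ≠ 0 := by positivity
      field_simp
      ring

lemma inj_ff : InjOn (fun x : ℝ => x / (1 - x)) (Ioo 0 1) := by
  intro x hx y hy h
  simp only at h
  have h1 : (1 - x : ℝ) ≠ 0 := by linarith [hx.2]
  have h2 : (1 - y : ℝ) ≠ 0 := by linarith [hy.2]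
  rw [div_eq_div_iff h1 h2] at h
  linarith

lemma der_ff : ∀ x ∈ Ioo (0 : ℝ) 1, HasDerivWithinAt (fun x : ℝ => x / (1 - x)) (1 / (1 - x) ^ 2) (Ioo 0 1) x := by
  intro x hx
  have h1 : (1 - x : ℝ) ≠ 0 := by linarith [hx.2]
  have h2 := (hasDerivAt_id x).div ((hasDerivAt_id x).const_sub 1) h1
  refine (h2.congr_deriv ?_).hasDerivWithinAt
  simp only [id]
  field_simp
  ring

lemma integrand_ff (s : ℂ) {x : ℝ} (hx : x ∈ Ioo (0 : ℝ) 1) :
    |1 / (1 - x) ^ 2| • (((x / (1 - x) : ℝ) : ℂ) ^ (s - 1) • ph (x / (1 - x))) =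
      (x : ℂ) ^ (s + 1 - 1) * (1 - (x : ℂ)) ^ (2 - s - 1) := by
  have h0 : 0 < x := hx.1
  have h1 : 0 < 1 - x := by linarith [hx.2]
  rw [abs_of_pos (by positivity)]
  have e1 : ph (x / (1 - x)) = ((x * (1 - x) ^ 2 : ℝ) : ℂ) := by
    unfold ph
    congr 1
    have : 1 + x / (1 - x) = 1 / (1 - x) := by field_simp; ring
    rw [this]
    field_simp
  have e2 : ((x / (1 - x) : ℝ) : ℂ) ^ (s - 1) = (x : ℂ) ^ (s - 1) * (((1 - x : ℝ)) : ℂ) ^ (1 - s) := by
    rw [div_eq_mul_inv, Complex.ofReal_mul, Complex.mul_cpow_ofReal_nonneg h0.le (by positivity)]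
    congr 1
    rw [Complex.ofReal_inv, Complex.inv_cpow _ _ (by
      rw [Complex.arg_ofReal_of_nonneg h1.le]; exact Real.pi_pos.ne), ← Complex.cpow_neg]
    congr 1; ring
  have hx0 : (x : ℂ) ≠ 0 := by exact_mod_cast h0.ne'
  have h10 : ((1 - x : ℝ) : ℂ) ≠ 0 := by exact_mod_cast h1.ne'
  have e3 : (x : ℂ) ^ (s + 1 - 1) = (x : ℂ) ^ (s - 1) * x := by
    have : s + 1 - 1 = (s - 1) + 1 := by ring
    rw [this, Complex.cpow_add _ _ hx0, Complex.cpow_one]
  have e4 : (1 - (x : ℂ)) ^ (2 - s - 1) = (((1 - x : ℝ)) : ℂ) ^ (1 - s) := by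
    congr 1
    · push_cast; ring
    · ring
  rw [e1, e2, e3, e4, smul_eq_mul, Complex.real_smul]
  have h3 : ((1 / (1 - x) ^ 2 : ℝ) : ℂ) * ((x * (1 - x) ^ 2 : ℝ) : ℂ) = x := by
    rw [← Complex.ofReal_mul]
    congr 1
    field_simp
  calc _ = (((1 / (1 - x) ^ 2 : ℝ) : ℂ) * ((x * (1 - x) ^ 2 : ℝ) : ℂ)) *
        ((x : ℂ) ^ (s - 1) * (((1 - x : ℝ)) : ℂ) ^ (1 - s)) := by ring
    _ = _ := by rw [h3]; ring

lemma mellin_conv {s : ℂ} (h1 : -1 < s.re) (h2 : s.re < 2) : MellinConvergent ph s := by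
  unfold MellinConvergent
  rw [← image_ff, integrableOn_image_iff_integrableOn_abs_deriv_smul measurableSet_Ioo der_ff inj_ff]
  have hb := Complex.betaIntegral_convergent (u := s + 1) (v := 2 - s) (by simp; linarith) (by simp; linarith)
  rw [intervalIntegrable_iff_integrableOn_Ioo_of_le zero_le_one] at hb
  refine hb.congr_fun (fun x hx => ?_) measurableSet_Ioo
  exact (integrand_ff s hx).symm

lemma mellin_ph {s : ℂ} (h1 : -1 < s.re) (h2 : s.re < 2) :
    mellin ph s = Gamma (s + 1) * Gamma (2 - s) / 2 := by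
  unfold mellin
  rw [← image_ff, integral_image_eq_integral_abs_deriv_smul measurableSet_Ioo der_ff inj_ff]
  have e : ∫ x in Ioo (0 : ℝ) 1, |1 / (1 - x) ^ 2| • (((x / (1 - x) : ℝ) : ℂ) ^ (s - 1) • ph (x / (1 - x))) =
      Complex.betaIntegral (s + 1) (2 - s) := by
    unfold Complex.betaIntegral
    rw [intervalIntegral.integral_of_le zero_le_one, integral_Ioc_eq_integral_Ioo]
    exact setIntegral_congr_fun measurableSet_Ioo fun x hx => integrand_ff s hx
  rw [e]
  have h3 := Complex.Gamma_mul_Gamma_eq_betaIntegral (s := s + 1) (t := 2 - s) (by simp; linarith) (by simp; linarith)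
  have h4 : s + 1 + (2 - s) = (2 : ℕ) + 1 := by push_cast; ring
  rw [h4, Complex.Gamma_nat_eq_factorial] at h3
  rw [h3]
  simp

lemma K0_neg (w : ℂ) : K0 (-w) = K0 w := by
  unfold K0
  rw [mul_comm]
  congr 2; ring_nf

lemma K0_diff {w : ℂ} (h : |w.re| ≤ 1) : DifferentiableAt ℂ K0 w := by
  have h1 := abs_le.1 h
  have g1 : DifferentiableAt ℂ Gamma (3 / 2 + w) := by
    refine Complex.differentiableAt_Gamma _ fun m hm => ?_
    have := congrArg Complex.re hm
    simp at this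
    have : (0 : ℝ) ≤ m := Nat.cast_nonneg m
    linarith
  have g2 : DifferentiableAt ℂ Gamma (3 / 2 - w) := by
    refine Complex.differentiableAt_Gamma _ fun m hm => ?_
    have := congrArg Complex.re hm
    simp at this
    have : (0 : ℝ) ≤ m := Nat.cast_nonneg m
    linarith
  unfold K0
  exact (DifferentiableAt.comp w g1 (differentiableAt_id.const_add _)).mul
    (DifferentiableAt.comp w g2 (differentiableAt_id.const_sub _))

lemma K0_eq {w : ℂ} (hc : Complex.cos (Real.pi * w) ≠ 0) :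
    K0 w = (1 / 4 - w ^ 2) * Real.pi / Complex.cos (Real.pi * w) := by
  have h1 : w ≠ 1 / 2 := by
    rintro rfl
    apply hc
    rw [mul_one_div, Complex.cos_pi_div_two]
  have h2 : w ≠ -(1 / 2) := by
    rintro rfl
    apply hc
    rw [mul_neg, mul_one_div, Complex.cos_neg, Complex.cos_pi_div_two]
  have e1 : Gamma (3 / 2 + w) = (1 / 2 + w) * Gamma (1 / 2 + w) := by
    have := Complex.Gamma_add_one (1 / 2 + w) (fun h => h2 (by linear_combination h))
    rw [← this]; congr 1; ring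
  have e2 : Gamma (3 / 2 - w) = (1 / 2 - w) * Gamma (1 / 2 - w) := by
    have := Complex.Gamma_add_one (1 / 2 - w) (fun h => h1 (by linear_combination -h))
    rw [← this]; congr 1; ring
  have e3 := Complex.Gamma_mul_Gamma_one_sub (1 / 2 + w)
  have e4 : (1 : ℂ) - (1 / 2 + w) = 1 / 2 - w := by ring
  have e5 : Complex.sin (Real.pi * (1 / 2 + w)) = Complex.cos (Real.pi * w) := by
    have : (Real.pi : ℂ) * (1 / 2 + w) = Real.pi * w + Real.pi / 2 := by ring
    rw [this, Complex.sin_add_pi_div_two]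
  rw [e4, e5] at e3
  rw [K0, e1, e2]
  calc (1 / 2 + w) * Gamma (1 / 2 + w) * ((1 / 2 - w) * Gamma (1 / 2 - w))
      = (1 / 2 + w) * (1 / 2 - w) * (Gamma (1 / 2 + w) * Gamma (1 / 2 - w)) := by ring
    _ = _ := by rw [e3]; ring

lemma cos_formula (x y : ℝ) : Complex.cos (Real.pi * (⟨x, y⟩ : ℂ)) =
    ⟨Real.cos (Real.pi * x) * Real.cosh (Real.pi * y), -(Real.sin (Real.pi * x) * Real.sinh (Real.pi * y))⟩ := by
  have e : (Real.pi : ℂ) * (⟨x, y⟩ : ℂ) = ((Real.pi * x : ℝ) : ℂ) + ((Real.pi * y : ℝ) : ℂ) * I := by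
    rw [H370.mk_eq]; push_cast; ring
  rw [e, Complex.cos_add_mul_I, ← Complex.ofReal_cos, ← Complex.ofReal_sin, ← Complex.ofReal_cosh,
    ← Complex.ofReal_sinh, H370.mk_eq (Real.cos (Real.pi * x) * Real.cosh (Real.pi * y))]
  push_cast
  ring

/-- positivity of the real part -/
lemma K0_re {w : ℂ} (h : |w.re| < 1 / 2) : 0 < (K0 w).re := by
  obtain ⟨x, y⟩ := w
  have hx : |x| < 1 / 2 := h
  have hx2 := abs_lt.1 hx
  have hpi := Real.pi_pos
  have c1 : 0 < Real.cos (Real.pi * x) := Real.cos_pos_of_mem_Ioo ⟨by nlinarith, by nlinarith⟩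
  have c2 : 0 < Real.cosh (Real.pi * y) := Real.cosh_pos _
  have hc : Complex.cos (Real.pi * (⟨x, y⟩ : ℂ)) ≠ 0 := by
    rw [cos_formula]
    intro h0
    have := congrArg Complex.re h0
    simp only [Complex.zero_re] at this
    have := mul_pos c1 c2
    linarith
  rw [K0_eq hc]
  set c : ℂ := Complex.cos (Real.pi * (⟨x, y⟩ : ℂ)) with hcdef
  have hn : 0 < Complex.normSq c := Complex.normSq_pos.2 hc
  have e1 : ((1 / 4 - (⟨x, y⟩ : ℂ) ^ 2) * Real.pi / c).re =
      ((1 / 4 - (⟨x, y⟩ : ℂ) ^ 2) * (conj c)).re * (Real.pi / Complex.normSq c) := by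
    rw [div_eq_mul_inv, Complex.inv_def]
    have : (1 / 4 - (⟨x, y⟩ : ℂ) ^ 2) * (Real.pi : ℂ) * (conj c * ((Complex.normSq c)⁻¹ : ℝ)) =
      ((Real.pi / Complex.normSq c : ℝ) : ℂ) * ((1 / 4 - (⟨x, y⟩ : ℂ) ^ 2) * (conj c)) := by
      push_cast; ring
    rw [this, Complex.re_ofReal_mul]
    ring
  rw [e1]
  refine mul_pos ?_ (div_pos hpi hn)
  have e2 : (1 / 4 - (⟨x, y⟩ : ℂ) ^ 2) = ⟨1 / 4 - x ^ 2 + y ^ 2, -(2 * x * y)⟩ := by
    apply Complex.ext
    · simp [pow_two]; ring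
    · simp [pow_two]; ring
  rw [e2, hcdef, cos_formula, Complex.mul_re, Complex.conj_re, Complex.conj_im]
  simp only
  have s1 : 0 ≤ x * Real.sin (Real.pi * x) := by
    rcases le_total 0 x with h0 | h0
    · exact mul_nonneg h0 (Real.sin_nonneg_of_nonneg_of_le_pi (by positivity) (by nlinarith))
    · have : Real.sin (Real.pi * x) ≤ 0 := Real.sin_nonpos_of_nonpos_of_neg_pi_le (by nlinarith) (by nlinarith)
      exact mul_nonneg_of_nonpos_of_nonpos h0 this
  have s2 : 0 ≤ y * Real.sinh (Real.pi * y) := by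
    rcases le_total 0 y with h0 | h0
    · exact mul_nonneg h0 (Real.sinh_nonneg_iff.2 (by positivity))
    · have : Real.sinh (Real.pi * y) ≤ 0 := Real.sinh_nonpos_iff.2 (by nlinarith)
      exact mul_nonneg_of_nonpos_of_nonpos h0 this
  have h4 : 0 < (1 / 4 - x ^ 2 + y ^ 2) := by nlinarith [sq_nonneg y]
  have h5 := mul_pos h4 (mul_pos c1 c2)
  have h6 := mul_nonneg s1 s2
  nlinarith

/-- decay -/
lemma K0_bd : ∃ M : ℝ, 0 < M ∧ ∀ w : ℂ, |w.re| ≤ 1 → ‖K0 w‖ ≤ M * Real.exp (-(2 * |w.im|)) := by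
  have hK : IsCompact (Set.Icc (-1 : ℝ) 1 ×ℂ Set.Icc (-1) 1) := isCompact_Icc.reProdIm isCompact_Icc
  have hcont : ContinuousOn K0 (Set.Icc (-1 : ℝ) 1 ×ℂ Set.Icc (-1) 1) := by
    intro w hw
    have h1 := hw.1
    rw [mem_preimage] at h1
    exact (K0_diff (abs_le.2 ⟨h1.1, h1.2⟩)).continuousAt.continuousWithinAt
  obtain ⟨B, hB⟩ := hK.exists_bound_of_continuousOn hcont
  refine ⟨|B| * Real.exp 2 + 1000, by positivity, fun w hw => ?_⟩
  have hE := Real.exp_pos (-(2 * |w.im|))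
  rcases le_or_gt |w.im| 1 with h1 | h1
  · have h2 := hB w ⟨abs_le.1 hw, abs_le.1 h1⟩
    have h3 : 1 ≤ Real.exp 2 * Real.exp (-(2 * |w.im|)) := by
      rw [← Real.exp_add]
      exact Real.one_le_exp (by linarith)
    calc ‖K0 w‖ ≤ |B| * 1 := by rw [mul_one]; exact h2.trans (le_abs_self B)
      _ ≤ |B| * (Real.exp 2 * Real.exp (-(2 * |w.im|))) := by gcongr
      _ ≤ (|B| * Real.exp 2 + 1000) * Real.exp (-(2 * |w.im|)) := by nlinarith
  · set v : ℝ := |w.im| with hv
    have hv0 : 0 ≤ v := abs_nonneg _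
    have hwv : w = ⟨w.re, w.im⟩ := rfl
    have hpi := Real.pi_gt_three
    have hsq : Real.exp (3 * v) / 4 ≤ ‖Complex.cos (Real.pi * w)‖ := by
      have g1 : |Real.sinh (Real.pi * w.im)| ≤ ‖Complex.cos (Real.pi * w)‖ := by
        have h5 : ‖Complex.cos (Real.pi * w)‖ ^ 2 =
            Real.cos (Real.pi * w.re) ^ 2 + Real.sinh (Real.pi * w.im) ^ 2 := by
          have h6 := cos_formula w.re w.im
          rw [← hwv] at h6
          rw [h6, ← Complex.normSq_eq_norm_sq, Complex.normSq_mk]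
          have h7 := Real.cosh_sq (Real.pi * w.im)
          have h8 := Real.sin_sq_add_cos_sq (Real.pi * w.re)
          nlinarith
        refine abs_le_of_sq_le_sq ?_ (norm_nonneg _)
        rw [h5]
        nlinarith [sq_nonneg (Real.cos (Real.pi * w.re))]
      refine le_trans ?_ g1
      have g2 : |Real.sinh (Real.pi * w.im)| = Real.sinh (Real.pi * v) := by
        rw [hv, Real.abs_sinh, abs_mul, abs_of_pos Real.pi_pos]
      rw [g2, Real.sinh_eq]
      have g3 : Real.exp (-(Real.pi * v)) ≤ 1 := Real.exp_le_one_iff.2 (by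
        have : 0 ≤ Real.pi * v := by positivity
        linarith)
      have g4 : Real.exp (3 * v) ≤ Real.exp (Real.pi * v) := Real.exp_le_exp.2 (by nlinarith)
      have g5 : 4 ≤ Real.exp (3 * v) := by
        have := Real.add_one_le_exp (3 * v)
        linarith
      linarith
    have hc0 : Complex.cos (Real.pi * w) ≠ 0 := by
      intro h0
      rw [h0, norm_zero] at hsq
      have := Real.exp_pos (3 * v)
      linarith
    rw [K0_eq hc0, norm_div, norm_mul, Complex.norm_real, Real.norm_of_nonneg Real.pi_pos.le]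
    rw [div_le_iff₀ (norm_pos_iff.2 hc0)]
    have h6 : ‖(1 / 4 - w ^ 2 : ℂ)‖ ≤ (1 + v) ^ 2 + 1 := by
      have h7 : ‖w‖ ≤ 1 + v := by
        refine (Complex.norm_le_abs_re_add_abs_im w).trans ?_
        linarith
      calc ‖(1 / 4 - w ^ 2 : ℂ)‖ ≤ ‖(1 / 4 : ℂ)‖ + ‖w ^ 2‖ := norm_sub_le _ _
        _ ≤ 1 + (1 + v) ^ 2 := by
            rw [norm_pow]
            have : ‖(1 / 4 : ℂ)‖ ≤ 1 := by norm_num
            gcongr
        _ = _ := by ring
    have h8 : (1 + v) ^ 2 + 1 ≤ 50 * Real.exp v := by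
      have h9 := cube_exp hv0
      rw [Real.exp_neg, ← div_eq_mul_inv, div_le_iff₀ (Real.exp_pos v)] at h9
      have h10 : (1 + v) ^ 2 ≤ (1 + v) ^ 3 := by nlinarith [sq_nonneg v]
      have h11 := Real.add_one_le_exp v
      linarith
    have hpi4 := Real.pi_lt_four
    calc ‖(1 / 4 - w ^ 2 : ℂ)‖ * Real.pi ≤ (50 * Real.exp v) * 4 := by
          refine mul_le_mul (h6.trans h8) hpi4.le (by positivity) (by positivity)
      _ ≤ (1000 * Real.exp (-(2 * v))) * (Real.exp (3 * v) / 4) := by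
          have : Real.exp v = Real.exp (-(2 * v)) * Real.exp (3 * v) := by
            rw [← Real.exp_add]; ring_nf
          rw [this]
          have := Real.exp_pos (-(2 * v))
          have := Real.exp_pos (3 * v)
          have h12 := mul_pos (Real.exp_pos (-(2 * v))) (Real.exp_pos (3 * v))
          nlinarith
      _ ≤ ((|B| * Real.exp 2 + 1000) * Real.exp (-(2 * v))) * ‖Complex.cos (Real.pi * w)‖ := by
          refine mul_le_mul ?_ hsq (by positivity) (by positivity)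
          refine mul_le_mul_of_nonneg_right ?_ hE.le
          have : 0 ≤ |B| * Real.exp 2 := by positivity
          linarith

end Pool.Agent.Y746.PT
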