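import Pool.Agent.Y746.PT.Blk

/-! # Values at powers of `q` in short blocks: the equivalences -/

set_option autoImplicit false

open Complex Filter Topology Set MeasureTheory

namespace Pool.Agent.Y746.PT

/-- blocks of arbitrary length exponent -/
theorem block2 {q θ α : ℝ} (C : ℝ) (hq : 1 < q) (hθ : 1 / 2 ≤ θ) (hα : 4 * θ * (1 - θ) ≤ α)
    {s0 : ℂ} (h0 : riemannZeta s0 = 0) (h1 : θ < s0.re) :
    ∃ N0 : ℕ, ∀ N : ℕ, N0 ≤ N → ∃ k : ℕ, N ≤ k ∧ (k : ℝ) ≤ N + (N : ℝ) ^ α ∧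
      C * (q ^ k) ^ (θ - 2) < |EE (q ^ k)| := by
  have hq0 : 0 < q := by linarith
  obtain ⟨N0, hN0⟩ := block1 (q := q) (θ := θ) (α := min α 1) (C := max C 0) hq hθ
    (le_min hα (by nlinarith [sq_nonneg (2 * θ - 1)])) (min_le_right _ _) (le_max_right _ _) h0 h1
  refine ⟨max N0 1, fun N hN => ?_⟩
  obtain ⟨k, hk1, hk2, hk3⟩ := hN0 N (le_trans (le_max_left _ _) hN)
  have hN1 : (1 : ℝ) ≤ N := by exact_mod_cast (le_trans (le_max_right _ _) hN)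
  refine ⟨k, hk1, hk2.trans ?_, lt_of_le_of_lt ?_ hk3⟩
  · have := Real.rpow_le_rpow_of_exponent_le hN1 (min_le_left α 1)
    linarith
  · have e : q ^ ((θ - 2) * k) = (q ^ k) ^ (θ - 2) := by
      rw [← Real.rpow_natCast, ← Real.rpow_mul hq0.le]; congr 1; ring
    rw [e]
    exact mul_le_mul_of_nonneg_right (le_max_left _ _) (by positivity)

theorem three {q θ α : ℝ} (hq : 1 < q) (hθ : 1 / 2 ≤ θ) (hα : 4 * θ * (1 - θ) ≤ α) :
    [∀ s : ℂ, θ < s.re → riemannZeta s ≠ 0,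
      ∃ C : ℝ, ∀ x : ℝ, 1 ≤ x → |EE x| ≤ C * x ^ (θ - 2),
      ∃ C : ℝ, ∃ᶠ N : ℕ in atTop, ∀ k : ℕ, N ≤ k → (k : ℝ) ≤ N + (N : ℝ) ^ α →
        |EE (q ^ k)| ≤ C * (q ^ k) ^ (θ - 2)].TFAE := by
  tfae_have 1 → 2 := fun h => direct hθ h
  tfae_have 2 → 3 := by
    rintro ⟨C, hC⟩
    refine ⟨C, Eventually.frequently (Eventually.of_forall fun N k _ _ => hC _ ?_)⟩
    exact one_le_pow₀ hq.le
  tfae_have 3 → 1 := by
    rintro ⟨C, hC⟩ s0 h1 h0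
    obtain ⟨N0, hN0⟩ := block2 C hq hθ hα h0 h1
    obtain ⟨N, hN, hN'⟩ := (frequently_atTop.1 hC) N0
    obtain ⟨k, hk1, hk2, hk3⟩ := hN0 N hN
    exact absurd (hN' k hk1 hk2) (not_le.2 hk3)
  tfae_finish

/-- the open question -/
theorem quest {q α : ℝ} (hq : 1 < q) (hα : 0 < α) :
    (∃ σ0 : ℝ, 1 / 2 < σ0 ∧ σ0 < 1 ∧ ∀ s : ℂ, σ0 ≤ s.re → riemannZeta s ≠ 0) ↔
    ∃ θ : ℝ, θ < 1 ∧ ∃ C : ℝ, ∃ᶠ N : ℕ in atTop, ∀ k : ℕ, N ≤ k → (k : ℝ) ≤ N + (N : ℝ) ^ α →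
        |EE (q ^ k)| ≤ C * (q ^ k) ^ (θ - 2) := by
  constructor
  · rintro ⟨σ0, h1, h2, h3⟩
    refine ⟨σ0, h2, ?_⟩
    obtain ⟨C, hC⟩ := direct h1.le (fun s hs => h3 s hs.le)
    refine ⟨C, Eventually.frequently (Eventually.of_forall fun N k _ _ => hC _ ?_)⟩
    exact one_le_pow₀ hq.le
  · rintro ⟨θ, h1, C, hC⟩
    -- a larger `θ` close to one
    set θ' : ℝ := max (max θ (3 / 4)) (1 - α / 4) with hθ'
    have a1 : θ ≤ θ' := (le_max_left _ _).trans (le_max_left _ _)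
    have a2 : 3 / 4 ≤ θ' := (le_max_right _ _).trans (le_max_left _ _)
    have a3 : 1 - α / 4 ≤ θ' := le_max_right _ _
    have a4 : θ' < 1 := max_lt (max_lt h1 (by norm_num)) (by linarith)
    have h4 : ∀ s : ℂ, θ' < s.re → riemannZeta s ≠ 0 := by
      refine ((three (q := q) (θ := θ') (α := α) hq (by linarith) (by nlinarith)).out 0 2).2 ?_
      refine ⟨max C 0, hC.mono fun N hN k hk1 hk2 => (hN k hk1 hk2).trans ?_⟩
      have hqk : 1 ≤ q ^ k := one_le_pow₀ hq.le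
      calc C * (q ^ k) ^ (θ - 2) ≤ max C 0 * (q ^ k) ^ (θ - 2) :=
            mul_le_mul_of_nonneg_right (le_max_left _ _) (by positivity)
        _ ≤ _ := mul_le_mul_of_nonneg_left
            (Real.rpow_le_rpow_of_exponent_le hqk (by linarith)) (le_max_right _ _)
    exact ⟨(1 + θ') / 2, by linarith, by linarith, fun s hs => h4 s (by linarith)⟩

end Pool.Agent.Y746.PT
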