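import Mathlib

/-! # Separating the exponents of an exponential sum by modulus -/

set_option autoImplicit false

open Complex Filter Topology Set MeasureTheory Polynomial

namespace Pool.Agent.Y746.PT

variable {ι : Type} [DecidableEq ι]

/-- the monic polynomial with the given zeros -/
noncomputable def om (s : Finset ι) (z : ι → ℂ) : ℂ[X] := ∏ j ∈ s, (X - C (z j))

lemma om_deg (s : Finset ι) (z : ι → ℂ) : (om s z).natDegree = s.card := by
  unfold om
  rw [natDegree_prod _ _ fun j _ => X_sub_C_ne_zero _]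
  simp

lemma nr_bound (s : Finset ι) (z : ι → ℂ) {r : ℝ} (hr : 0 ≤ r) :
    ∑ i ∈ Finset.range (s.card + 1), ‖(om s z).coeff i‖ * r ^ i ≤ ∏ j ∈ s, (r + ‖z j‖) := by
  induction s using Finset.induction_on with
  | empty => simp [om]
  | insert a s ha ih =>
    rw [Finset.prod_insert ha, Finset.card_insert_of_notMem ha]
    have e : om (insert a s) z = (X - C (z a)) * om s z := by
      unfold om; rw [Finset.prod_insert ha]
    set p := om s z with hp
    set n := s.card with hn
    have hdeg : p.natDegree = n := om_deg s z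
    set A : ℝ := ∑ i ∈ Finset.range (n + 1), ‖p.coeff i‖ * r ^ i with hA
    have hA0 : 0 ≤ A := Finset.sum_nonneg fun i _ => by positivity
    have key : ∑ i ∈ Finset.range (n + 1 + 1), ‖(om (insert a s) z).coeff i‖ * r ^ i ≤ (r + ‖z a‖) * A := by
      rw [Finset.sum_range_succ', e]
      have h0 : ‖((X - C (z a)) * p).coeff 0‖ = ‖z a‖ * ‖p.coeff 0‖ := by
        rw [mul_coeff_zero]; simp
      have h1 : ∀ i ∈ Finset.range (n + 1), ‖((X - C (z a)) * p).coeff (i + 1)‖ * r ^ (i + 1) ≤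
          r * (‖p.coeff i‖ * r ^ i) + ‖z a‖ * (‖p.coeff (i + 1)‖ * r ^ (i + 1)) := by
        intro i _
        have h2 : ((X - C (z a)) * p).coeff (i + 1) = p.coeff i - z a * p.coeff (i + 1) := by
          rw [sub_mul, coeff_sub, coeff_X_mul, coeff_C_mul]
        rw [h2]
        calc ‖p.coeff i - z a * p.coeff (i + 1)‖ * r ^ (i + 1) ≤ (‖p.coeff i‖ + ‖z a‖ * ‖p.coeff (i + 1)‖) * r ^ (i + 1) := by
              gcongr
              refine (norm_sub_le _ _).trans ?_
              rw [norm_mul]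
          _ = _ := by rw [pow_succ]; ring
      have h3 : ∑ i ∈ Finset.range (n + 1), ‖p.coeff (i + 1)‖ * r ^ (i + 1) + ‖p.coeff 0‖ = A := by
        have h4 := Finset.sum_range_succ' (fun i => ‖p.coeff i‖ * r ^ i) (n + 1)
        rw [Finset.sum_range_succ] at h4
        have h5 : p.coeff (n + 1) = 0 := coeff_eq_zero_of_natDegree_lt (by omega)
        rw [h5, norm_zero, zero_mul, add_zero, pow_zero, mul_one] at h4
        exact h4.symm
      calc _ ≤ ∑ i ∈ Finset.range (n + 1), (r * (‖p.coeff i‖ * r ^ i) + ‖z a‖ * (‖p.coeff (i + 1)‖ * r ^ (i + 1))) +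
            ‖z a‖ * ‖p.coeff 0‖ := by
              rw [pow_zero, mul_one, h0]
              exact add_le_add (Finset.sum_le_sum h1) le_rfl
        _ = r * A + ‖z a‖ * (∑ i ∈ Finset.range (n + 1), ‖p.coeff (i + 1)‖ * r ^ (i + 1) + ‖p.coeff 0‖) := by
              rw [Finset.sum_add_distrib, ← Finset.mul_sum, ← Finset.mul_sum]; ring
        _ = _ := by rw [h3]; ring
    exact key.trans (mul_le_mul_of_nonneg_left ih (by positivity))

/-- coefficients of `(ω(w) - ω(z)) / (w - z)` as a polynomial in `z` -/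
noncomputable def qk (p : ℂ[X]) (n k : ℕ) (w : ℂ) : ℂ :=
  ∑ i ∈ Finset.range (n + 1), if k < i then p.coeff i * w ^ (i - 1 - k) else 0

lemma qk_sum {p : ℂ[X]} {n : ℕ} (hp : p.natDegree ≤ n) (w z : ℂ) :
    (∑ k ∈ Finset.range n, z ^ k * qk p n k w) * (w - z) = p.eval w - p.eval z := by
  have h1 : ∀ x : ℂ, p.eval x = ∑ i ∈ Finset.range (n + 1), p.coeff i * x ^ i := fun x =>
    eval_eq_sum_range' (by omega) x
  rw [h1, h1, ← Finset.sum_sub_distrib]
  unfold qk
  simp only [Finset.mul_sum]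
  rw [Finset.sum_comm, Finset.sum_mul]
  refine Finset.sum_congr rfl fun i hi => ?_
  have hin : i ≤ n := by
    have := Finset.mem_range.1 hi
    omega
  have h2 : ∑ k ∈ Finset.range n, z ^ k * (if k < i then p.coeff i * w ^ (i - 1 - k) else 0) =
      ∑ k ∈ Finset.range i, z ^ k * (p.coeff i * w ^ (i - 1 - k)) := by
    rw [← Finset.sum_subset (Finset.range_mono hin)]
    · refine Finset.sum_congr rfl fun k hk => ?_
      rw [if_pos (Finset.mem_range.1 hk)]
    · intro k _ hk
      rw [if_neg (by simpa using hk), mul_zero]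
  rw [h2]
  have h3 := geom_sum₂_mul z w i
  have h4 : ∑ k ∈ Finset.range i, z ^ k * (p.coeff i * w ^ (i - 1 - k)) =
      p.coeff i * ∑ k ∈ Finset.range i, z ^ k * w ^ (i - 1 - k) := by
    rw [Finset.mul_sum]
    exact Finset.sum_congr rfl fun k _ => by ring
  rw [h4]
  linear_combination (-(p.coeff i)) * h3

lemma qk_bound {p : ℂ[X]} {n k : ℕ} {w : ℂ} {r : ℝ} (hr : 0 < r) (hw : ‖w‖ = r) :
    ‖qk p n k w‖ ≤ (r ^ (1 + k))⁻¹ * ∑ i ∈ Finset.range (n + 1), ‖p.coeff i‖ * r ^ i := by
  unfold qk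
  rw [Finset.mul_sum]
  refine norm_sum_le_of_le _ fun i _ => ?_
  split_ifs with h
  · rw [norm_mul, norm_pow, hw]
    have : r ^ i = r ^ (1 + k) * r ^ (i - 1 - k) := by
      rw [← pow_add]; congr 1; omega
    rw [this]
    have h1 : r ^ (1 + k) ≠ 0 := by positivity
    have e : (r ^ (1 + k))⁻¹ * (‖p.coeff i‖ * (r ^ (1 + k) * r ^ (i - 1 - k))) = ‖p.coeff i‖ * r ^ (i - 1 - k) := by
      field_simp
    rw [e]
  · rw [norm_zero]; positivity

lemma qk_cont (p : ℂ[X]) (n k : ℕ) : Continuous (qk p n k) := by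
  unfold qk
  refine continuous_finsetSum _ fun i _ => ?_
  split_ifs
  · fun_prop
  · exact continuous_const

lemma circ_pow {r : ℝ} {n : ℤ} (hn : n ≠ -1) : (∮ w in C(0, r), w ^ n) = 0 := by
  have := circleIntegral.integral_sub_zpow_of_ne hn 0 0 r
  simpa using this

lemma circ_out {z : ℂ} {r : ℝ} (hr : 0 < r) (hz : r < ‖z‖) : (∮ w in C(0, r), (w - z)⁻¹) = 0 := by
  refine Complex.circleIntegral_eq_zero_of_differentiable_on_off_countable hr.le Set.countable_empty ?_ ?_
  · refine ContinuousOn.inv₀ (by fun_prop) fun w hw => ?_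
    intro h0
    rw [Metric.mem_closedBall, dist_zero_right] at hw
    have : w = z := by linear_combination h0
    rw [this] at hw
    linarith
  · intro w hw
    have hw1 := hw.1
    rw [Metric.mem_ball, dist_zero_right] at hw1
    refine ((differentiableAt_id.sub_const z).inv ?_)
    intro h0
    simp only [id] at h0
    have : w = z := by linear_combination h0
    rw [this] at hw1
    linarith

/-- the basic integral -/
lemma circ_basic {z : ℂ} {r : ℝ} (hr : 0 < r) (hz0 : z ≠ 0) (hz : ‖z‖ ≠ r) (m : ℕ) :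
    (∮ w in C(0, r), (w ^ (m + 1))⁻¹ * (w - z)⁻¹) = if r < ‖z‖ then -(2 * Real.pi * I) * (z ^ (m + 1))⁻¹ else 0 := by
  have hw0 : ∀ w ∈ Metric.sphere (0 : ℂ) r, w ≠ 0 := by
    intro w hw h0
    rw [mem_sphere_zero_iff_norm, h0, norm_zero] at hw
    linarith
  have hwz : ∀ w ∈ Metric.sphere (0 : ℂ) r, w - z ≠ 0 := by
    intro w hw h0
    rw [mem_sphere_zero_iff_norm] at hw
    have : w = z := by linear_combination h0
    exact hz (by rw [← this]; exact hw)
  have ci : ∀ k : ℕ, CircleIntegrable (fun w => (w ^ k)⁻¹ * (w - z)⁻¹) 0 r := by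
    intro k
    refine ContinuousOn.circleIntegrable hr.le ?_
    refine ContinuousOn.mul (ContinuousOn.inv₀ (by fun_prop) fun w hw => pow_ne_zero _ (hw0 w hw))
      (ContinuousOn.inv₀ (by fun_prop) hwz)
  have ci2 : ∀ k : ℕ, CircleIntegrable (fun w : ℂ => (w ^ k)⁻¹) 0 r := by
    intro k
    refine ContinuousOn.circleIntegrable hr.le ?_
    exact ContinuousOn.inv₀ (by fun_prop) fun w hw => pow_ne_zero _ (hw0 w hw)
  have step : ∀ k : ℕ, (∮ w in C(0, r), (w ^ (k + 1))⁻¹ * (w - z)⁻¹) =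
      z⁻¹ * ((∮ w in C(0, r), (w ^ k)⁻¹ * (w - z)⁻¹) - ∮ w in C(0, r), (w ^ (k + 1))⁻¹) := by
    intro k
    rw [← circleIntegral.integral_sub (ci k) (ci2 (k + 1)), ← circleIntegral.integral_const_mul]
    refine circleIntegral.integral_congr hr.le fun w hw => ?_
    have h1 := hw0 w hw
    have h2 := hwz w hw
    beta_reduce
    field_simp
    ring
  have p1 : (∮ w in C(0, r), ((w : ℂ) ^ (0 + 1))⁻¹) = 2 * Real.pi * I := by
    have := circleIntegral.integral_sub_inv_of_mem_ball (c := 0) (w := 0) (R := r) (by simpa using hr)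
    simpa using this
  have p2 : ∀ k : ℕ, (∮ w in C(0, r), ((w : ℂ) ^ (k + 1 + 1))⁻¹) = 0 := by
    intro k
    have := circ_pow (r := r) (n := -((k : ℤ) + 2)) (by omega)
    refine Eq.trans ?_ this
    refine circleIntegral.integral_congr hr.le fun w _ => ?_
    beta_reduce
    rw [zpow_neg, show ((k : ℤ) + 2) = ((k + 1 + 1 : ℕ) : ℤ) by push_cast; ring, zpow_natCast]
  induction m with
  | zero =>
    rw [step 0, p1]
    split_ifs with h
    · have : (∮ w in C(0, r), ((w : ℂ) ^ 0)⁻¹ * (w - z)⁻¹) = 0 := by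
        simp only [pow_zero, inv_one, one_mul]
        exact circ_out hr h
      rw [this, zero_add, pow_one]; ring
    · have hlt : ‖z‖ < r := lt_of_le_of_ne (not_lt.1 h) hz
      have : (∮ w in C(0, r), ((w : ℂ) ^ 0)⁻¹ * (w - z)⁻¹) = 2 * Real.pi * I := by
        simp only [pow_zero, inv_one, one_mul]
        exact circleIntegral.integral_sub_inv_of_mem_ball (by simpa using hlt)
      rw [this]; ring
  | succ m ih =>
    rw [step (m + 1), ih, p2 m]
    split_ifs
    · rw [pow_succ z (m + 1), mul_inv]; ring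
    · ring

/-- separation of the large exponents -/
theorem interp (s : Finset ι) (z : ι → ℂ) {r : ℝ} (hr : 0 < r) (h0 : ∀ j ∈ s, z j ≠ 0)
    (hne : ∀ j ∈ s, ‖z j‖ ≠ r) (m : ℕ) : ∃ c : ℕ → ℂ,
    (∀ k, ‖c k‖ ≤ (r ^ (m + 1 + k))⁻¹ * ∏ j ∈ s, ((r + ‖z j‖) / |‖z j‖ - r|)) ∧
    ∀ j ∈ s, ∑ k ∈ Finset.range s.card, c k * z j ^ (m + 1 + k) = if r < ‖z j‖ then 1 else 0 := by
  set p := om s z with hp
  set n := s.card with hn
  have hdeg : p.natDegree = n := om_deg s z
  have hev : ∀ w : ℂ, p.eval w = ∏ j ∈ s, (w - z j) := by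
    intro w
    rw [hp, om, eval_prod]
    simp
  have hw0 : ∀ w ∈ Metric.sphere (0 : ℂ) r, w ≠ 0 := by
    intro w hw h0
    rw [mem_sphere_zero_iff_norm, h0, norm_zero] at hw
    linarith
  have hwz : ∀ j ∈ s, ∀ w ∈ Metric.sphere (0 : ℂ) r, w - z j ≠ 0 := by
    intro j hj w hw h0
    rw [mem_sphere_zero_iff_norm] at hw
    have : w = z j := by linear_combination h0
    exact hne j hj (by rw [← this]; exact hw)
  have hpw : ∀ w ∈ Metric.sphere (0 : ℂ) r, p.eval w ≠ 0 := by
    intro w hw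
    rw [hev]
    exact Finset.prod_ne_zero_iff.2 fun j hj => hwz j hj w hw
  set G : ℕ → ℂ → ℂ := fun k w => (w ^ (m + 1))⁻¹ * (qk p n k w * (p.eval w)⁻¹) with hG
  have hGc : ∀ k, ContinuousOn (G k) (Metric.sphere (0 : ℂ) r) := by
    intro k
    refine ContinuousOn.mul (ContinuousOn.inv₀ (by fun_prop) fun w hw => pow_ne_zero _ (hw0 w hw)) ?_
    exact (qk_cont p n k).continuousOn.mul (ContinuousOn.inv₀ p.continuous.continuousOn hpw)
  have hGi : ∀ k, CircleIntegrable (G k) 0 r := fun k => (hGc k).circleIntegrable hr.le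
  refine ⟨fun k => -(2 * Real.pi * I : ℂ)⁻¹ * ∮ w in C(0, r), G k w, fun k => ?_, fun j hj => ?_⟩
  · have hb : ∀ w ∈ Metric.sphere (0 : ℂ) r, ‖G k w‖ ≤ (r ^ (m + 1))⁻¹ * ((r ^ (1 + k))⁻¹ *
        ∏ j ∈ s, ((r + ‖z j‖) / |‖z j‖ - r|)) := by
      intro w hw
      have hwr : ‖w‖ = r := mem_sphere_zero_iff_norm.1 hw
      rw [hG]
      simp only
      rw [norm_mul, norm_inv, norm_pow, hwr]
      refine mul_le_mul_of_nonneg_left ?_ (by positivity)
      rw [norm_mul, norm_inv]
      have h1 := qk_bound (p := p) (n := n) (k := k) hr hwr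
      have h2 := nr_bound s z hr.le
      have h3 : ∏ j ∈ s, |‖z j‖ - r| ≤ ‖p.eval w‖ := by
        rw [hev, norm_prod]
        refine Finset.prod_le_prod (fun j _ => abs_nonneg _) fun j _ => ?_
        rw [← hwr, abs_sub_comm]
        exact abs_norm_sub_norm_le _ _
      have h4 : 0 < ∏ j ∈ s, |‖z j‖ - r| := Finset.prod_pos fun j hj => abs_pos.2 (sub_ne_zero.2 (hne j hj))
      have h5 : 0 ≤ ∏ j ∈ s, (r + ‖z j‖) := Finset.prod_nonneg fun j _ => by positivity
      rw [Finset.prod_div_distrib]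
      calc ‖qk p n k w‖ * ‖p.eval w‖⁻¹ ≤ ((r ^ (1 + k))⁻¹ * ∏ j ∈ s, (r + ‖z j‖)) * (∏ j ∈ s, |‖z j‖ - r|)⁻¹ := by
            refine mul_le_mul (h1.trans (mul_le_mul_of_nonneg_left h2 (by positivity))) ?_ (by positivity) (by positivity)
            exact inv_anti₀ h4 h3
        _ = _ := by rw [div_eq_mul_inv]; ring
    have h6 := circleIntegral.norm_integral_le_of_norm_le_const hr.le hb
    rw [norm_mul, norm_neg, norm_inv]
    have h7 : ‖(2 * Real.pi * I : ℂ)‖ = 2 * Real.pi := by
      rw [norm_mul, norm_mul, Complex.norm_I, Complex.norm_real, Real.norm_of_nonneg Real.pi_pos.le]; simp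
    rw [h7]
    have hpi := Real.pi_pos
    calc (2 * Real.pi)⁻¹ * ‖∮ w in C(0, r), G k w‖ ≤ (2 * Real.pi)⁻¹ * (2 * Real.pi * r *
          ((r ^ (m + 1))⁻¹ * ((r ^ (1 + k))⁻¹ * ∏ j ∈ s, ((r + ‖z j‖) / |‖z j‖ - r|)))) := by gcongr
      _ = _ := by
          have : r ^ (m + 1 + k) = r ^ (m + 1) * r ^ (1 + k) / r := by
            rw [← pow_add, show m + 1 + (1 + k) = (m + 1 + k) + 1 by ring, pow_succ]
            field_simp
          rw [this]
          field_simp
  · have h1 : ∑ k ∈ Finset.range n, (-(2 * Real.pi * I : ℂ)⁻¹ * ∮ w in C(0, r), G k w) * z j ^ (m + 1 + k) =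
        -(2 * Real.pi * I : ℂ)⁻¹ * z j ^ (m + 1) * ∮ w in C(0, r), ∑ k ∈ Finset.range n, z j ^ k * G k w := by
      have h2 : (∮ w in C(0, r), ∑ k ∈ Finset.range n, z j ^ k * G k w) =
          ∑ k ∈ Finset.range n, z j ^ k * ∮ w in C(0, r), G k w := by
        rw [circleIntegral.integral_fun_sum]
        · exact Finset.sum_congr rfl fun k _ => circleIntegral.integral_const_mul _ _ _ _
        · intro k _
          exact ((continuousOn_const.mul (hGc k)).circleIntegrable hr.le)
      rw [h2, Finset.mul_sum]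
      refine Finset.sum_congr rfl fun k _ => ?_
      rw [pow_add]; ring
    rw [h1]
    have h3 : (∮ w in C(0, r), ∑ k ∈ Finset.range n, z j ^ k * G k w) =
        ∮ w in C(0, r), (w ^ (m + 1))⁻¹ * (w - z j)⁻¹ := by
      refine circleIntegral.integral_congr hr.le fun w hw => ?_
      have h4 := qk_sum (p := p) (n := n) hdeg.le w (z j)
      have h5 : p.eval (z j) = 0 := by
        rw [hev]
        exact Finset.prod_eq_zero hj (sub_self _)
      rw [h5, sub_zero] at h4
      have h6 := hpw w hw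
      have h7 := hwz j hj w hw
      have h8 := hw0 w hw
      have e : ∑ k ∈ Finset.range n, z j ^ k * G k w =
          (w ^ (m + 1))⁻¹ * ((∑ k ∈ Finset.range n, z j ^ k * qk p n k w) * (p.eval w)⁻¹) := by
        rw [Finset.sum_mul, Finset.mul_sum]
        refine Finset.sum_congr rfl fun k _ => ?_
        rw [hG]; ring
      beta_reduce
      rw [e]
      congr 1
      rw [← h4]
      have h9 : (∑ k ∈ Finset.range n, z j ^ k * qk p n k w) ≠ 0 := by
        intro h10
        rw [h10, zero_mul] at h4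
        exact h6 h4.symm
      field_simp
    rw [h3, circ_basic hr (h0 j hj) (hne j hj) m]
    have hpi : (Real.pi : ℂ) ≠ 0 := by exact_mod_cast Real.pi_ne_zero
    have hz := h0 j hj
    split_ifs
    · field_simp
    · ring

end Pool.Agent.Y746.PT
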